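import Pool.Agent.Cogrowth637.Walk

/-!
# Maximal cogrowth gives almost invariant vectors
-/

namespace Pool.Agent.Cogrowth637

open scoped RealInnerProductSpace
open Filter

section Tree

variable {α : Type*} [DecidableEq α]

/-- The group element of a letter. -/
def el (s : α × Bool) : FreeGroup α := FreeGroup.mk [s]

lemma el_inv (s : α × Bool) : (el s)⁻¹ = el (s.1, !s.2) := by
  unfold el
  rw [FreeGroup.inv_mk]
  rfl

lemma toWord_el_inv_mul (s : α × Bool) (w : FreeGroup α) :
    ((el s)⁻¹ * w).toWord = FreeGroup.reduce ((s.1, !s.2) :: w.toWord) := by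
  rw [el_inv]
  conv_lhs => rw [← FreeGroup.mk_toWord (x := w)]
  unfold el
  rw [FreeGroup.mul_mk, FreeGroup.toWord_mk]
  rfl

lemma norm_eq (w : FreeGroup α) : w.norm = w.toWord.length := rfl

lemma toWord_el_inv_mul_cons {s x : α × Bool} {w : FreeGroup α} {tl : List (α × Bool)}
    (hw : w.toWord = x :: tl) :
    ((el s)⁻¹ * w).toWord = if s = x then tl else (s.1, !s.2) :: x :: tl := by
  rw [toWord_el_inv_mul, FreeGroup.reduce.cons, FreeGroup.reduce_toWord, hw]
  have hiff : (s.1 = x.1 ∧ (!s.2) = !x.2) ↔ s = x := by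
    constructor
    · rintro ⟨h1, h2⟩
      exact Prod.ext h1 (by simpa using h2)
    · rintro rfl
      exact ⟨rfl, rfl⟩
  show (if s.1 = x.1 ∧ (!s.2) = !x.2 then tl else (s.1, !s.2) :: x :: tl) = _
  by_cases h : s = x
  · rw [if_pos (hiff.mpr h), if_pos h]
  · rw [if_neg (fun h' => h (hiff.mp h')), if_neg h]

lemma norm_el_inv_mul {i : ℕ} {w : FreeGroup α} (hw : w.norm = i + 1) :
    ∃ x : α × Bool, ∀ s : α × Bool, ((el s)⁻¹ * w).norm = if s = x then i else i + 2 := by
  rw [norm_eq] at hw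
  obtain ⟨x, tl, hx⟩ := List.exists_cons_of_length_eq_add_one hw
  refine ⟨x, fun s => ?_⟩
  have hl : tl.length = i := by
    rw [hx, List.length_cons] at hw
    omega
  rw [norm_eq, toWord_el_inv_mul_cons hx]
  split_ifs
  · exact hl
  · rw [List.length_cons, List.length_cons, hl]

lemma norm_el_inv (s : α × Bool) : ((el s)⁻¹).norm = 1 := by
  rw [FreeGroup.norm_inv_eq, norm_eq]
  unfold el
  rw [FreeGroup.toWord_mk]
  rfl

variable [Fintype α]

lemma norm_eq_finite (n : ℕ) : {w : FreeGroup α | w.norm = n}.Finite := by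
  have h1 : {l : List (α × Bool) | l.length = n}.Finite := List.finite_length_eq _ _
  refine Set.Finite.of_finite_image (f := FreeGroup.toWord) (h1.subset ?_)
    (FreeGroup.toWord_injective.injOn)
  rintro _ ⟨w, hw, rfl⟩
  exact hw

/-- The sphere of radius `n` in the free group. -/
noncomputable def sphF (α : Type*) [DecidableEq α] [Fintype α] (n : ℕ) : Finset (FreeGroup α) :=
  (norm_eq_finite n).toFinset

lemma mem_sphF {n : ℕ} {w : FreeGroup α} : w ∈ sphF α n ↔ w.norm = n := by
  unfold sphF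
  rw [Set.Finite.mem_toFinset]
  rfl

/-- Indicator function of the sphere. -/
noncomputable def xi (α : Type*) [DecidableEq α] [Fintype α] (n : ℕ) : V (FreeGroup α) :=
  ∑ w ∈ sphF α n, bs w

lemma ev_xi (n : ℕ) (w : FreeGroup α) : ev (xi α n) w = if w.norm = n then 1 else 0 := by
  unfold xi
  rw [ev_sum]
  by_cases h : w.norm = n
  · rw [if_pos h, Finset.sum_eq_single w]
    · exact ev_bs_self w
    · intro v _ hv
      exact ev_bs_ne hv
    · intro h'
      exact absurd (mem_sphF.mpr h) h'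
  · rw [if_neg h]
    refine Finset.sum_eq_zero fun v hv => ev_bs_ne ?_
    rintro rfl
    exact h (mem_sphF.mp hv)

/-- The weighted ball function. -/
noncomputable def fn (α : Type*) [DecidableEq α] [Fintype α] (t : ℝ) (n : ℕ) : V (FreeGroup α) :=
  ∑ i ∈ Finset.range (n + 1), t ^ i • xi α i

lemma ev_fn (t : ℝ) (n : ℕ) (w : FreeGroup α) :
    ev (fn α t n) w = if w.norm ≤ n then t ^ w.norm else 0 := by
  unfold fn
  rw [ev_sum]
  by_cases h : w.norm ≤ n
  · rw [if_pos h, Finset.sum_eq_single w.norm]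
    · rw [ev_smul, ev_xi, if_pos rfl, mul_one]
    · intro i _ hi
      rw [ev_smul, ev_xi, if_neg (Ne.symm hi), mul_zero]
    · intro h'
      exact absurd (Finset.mem_range.mpr (by omega)) h'
  · rw [if_neg h]
    refine Finset.sum_eq_zero fun i hi => ?_
    rw [ev_smul, ev_xi, if_neg, mul_zero]
    rintro h'
    have := Finset.mem_range.mp hi
    omega

lemma ev_lt {G : Type*} [Group G] (g : G) (f : V G) (x : G) : ev (lt g f) x = ev f (g⁻¹ * x) := by
  have h := ev_push_inj (φ := fun x => g * x) (mul_right_injective g) f (g⁻¹ * x)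
  have h2 : g * (g⁻¹ * x) = x := mul_inv_cancel_left g x
  show ev (push (fun x => g * x) f) x = _
  rw [← h]
  show _ = ev (push (fun x => g * x) f) (g * (g⁻¹ * x))
  rw [h2]

/-- The adjacency operator inequality on the tree. -/
lemma adj_ineq {t : ℝ} (ht : 0 < t) (n : ℕ) (w : FreeGroup α)
    {q : ℝ} (hq : q + 1 = Fintype.card (α × Bool)) (hq0 : 0 ≤ q) :
    (1 / t + q * t) * ev (fn α t n) w ≤
      ev (∑ s : α × Bool, lt (el s) (fn α t n)) w + (1 / t) * ev (bs (1 : FreeGroup α)) w +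
        q * t ^ (n + 1) * ev (xi α n) w := by
  rw [ev_sum, ev_xi, ev_fn]
  have hsum : ∑ s : α × Bool, ev (lt (el s) (fn α t n)) w =
      ∑ s : α × Bool, if ((el s)⁻¹ * w).norm ≤ n then t ^ ((el s)⁻¹ * w).norm else 0 :=
    Finset.sum_congr rfl fun s _ => by rw [ev_lt, ev_fn]
  rw [hsum]
  rcases Nat.eq_zero_or_pos w.norm with h0 | h0
  · have hw : w = 1 := FreeGroup.norm_eq_zero.mp h0
    subst hw
    have h1 : ∀ s : α × Bool, ((el s)⁻¹ * (1 : FreeGroup α)).norm = 1 := fun s => by
      rw [mul_one, norm_el_inv]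
    simp only [h1, pow_one]
    rw [Finset.sum_const, nsmul_eq_mul, Finset.card_univ, ← hq, ev_bs_self, FreeGroup.norm_one,
      pow_zero, if_pos (Nat.zero_le n)]
    rcases Nat.eq_zero_or_pos n with hn | hn
    · subst hn
      rw [if_neg (by norm_num), if_pos rfl]
      simp only [zero_add, pow_one]
      linarith
    · rw [if_pos (show 1 ≤ n from hn), if_neg (by omega)]
      nlinarith
  · obtain ⟨i, hi⟩ : ∃ i, w.norm = i + 1 := ⟨w.norm - 1, by omega⟩
    have hw1 : (1 : FreeGroup α) ≠ w := by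
      rintro rfl
      rw [FreeGroup.norm_one] at h0
      exact lt_irrefl _ h0
    obtain ⟨x, hx⟩ := norm_el_inv_mul hi
    rw [ev_bs_ne hw1, mul_zero, add_zero, hi]
    have h1 : ∑ s : α × Bool, (if ((el s)⁻¹ * w).norm ≤ n then t ^ ((el s)⁻¹ * w).norm else 0) =
        (if i ≤ n then t ^ i else 0) + q * (if i + 2 ≤ n then t ^ (i + 2) else 0) := by
      rw [← Finset.add_sum_erase _ _ (Finset.mem_univ x), hx, if_pos rfl]
      congr 1
      have h2 : ∀ s ∈ Finset.univ.erase x,
          (if ((el s)⁻¹ * w).norm ≤ n then t ^ ((el s)⁻¹ * w).norm else 0) =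
            (if i + 2 ≤ n then t ^ (i + 2) else 0) := by
        intro s hs
        rw [hx, if_neg (Finset.ne_of_mem_erase hs)]
      rw [Finset.sum_congr rfl h2, Finset.sum_const, nsmul_eq_mul,
        Finset.card_erase_of_mem (Finset.mem_univ x), Finset.card_univ]
      have h3 : ((Fintype.card (α × Bool) - 1 : ℕ) : ℝ) = q := by
        rw [Nat.cast_sub (Fintype.card_pos_iff.mpr ⟨x⟩), ← hq]
        push_cast; ring
      rw [h3]
    rw [h1]
    have ht' : t ≠ 0 := ht.ne'
    have e1 : (1 / t + q * t) * t ^ (i + 1) = t ^ i + q * t ^ (i + 2) := by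
      field_simp
      ring
    rcases lt_trichotomy (i + 1) n with h | h | h
    · rw [if_pos (by omega), if_pos (by omega), if_pos (by omega), if_neg (by omega), e1]
      linarith
    · rw [if_pos (by omega), if_pos (by omega), if_neg (by omega), if_pos h, e1, ← h]
      have : t ^ (i + 1 + 1) = t ^ (i + 2) := rfl
      rw [this]
      linarith
    · rw [if_neg (by omega : ¬ i + 1 ≤ n), if_neg (by omega : ¬ i + 1 = n)]
      have h5 : (0 : ℝ) ≤ if i ≤ n then t ^ i else 0 := by
        split_ifs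
        · exact pow_nonneg ht.le _
        · exact le_rfl
      have h6 : (0 : ℝ) ≤ if i + 2 ≤ n then t ^ (i + 2) else 0 := by
        split_ifs
        · exact pow_nonneg ht.le _
        · exact le_rfl
      nlinarith [mul_nonneg hq0 h6]

/-- The size of spheres. -/
lemma card_sphF_succ (n : ℕ) :
    (sphF α (n + 2)).card ≤ (Fintype.card (α × Bool) - 1) * (sphF α (n + 1)).card := by
  classical
  let f : FreeGroup α → FreeGroup α := fun w =>
    FreeGroup.mk w.toWord.tail
  have hf : ∀ w, w.norm = n + 2 → (f w).toWord = w.toWord.tail := by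
    intro w _
    show (FreeGroup.mk w.toWord.tail).toWord = _
    rw [FreeGroup.toWord_mk]
    apply FreeGroup.IsReduced.reduce_eq
    exact List.IsChain.tail (FreeGroup.isReduced_toWord (x := w))
  refine (Finset.card_le_mul_card_image (f := f) _ (Fintype.card (α × Bool) - 1) ?_).trans ?_
  · intro v hv
    obtain ⟨w0, hw0, rfl⟩ := Finset.mem_image.mp hv
    rw [mem_sphF] at hw0
    have hlen : (f w0).toWord.length = n + 1 := by
      rw [hf w0 hw0, List.length_tail, ← norm_eq, hw0]
      rfl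
    obtain ⟨y, tl, hy⟩ := List.exists_cons_of_length_eq_add_one hlen
    -- the head map
    have hcard : (Finset.univ.erase ((y.1, !y.2) : α × Bool)).card =
        Fintype.card (α × Bool) - 1 := by
      rw [Finset.card_erase_of_mem (Finset.mem_univ _), Finset.card_univ]
    rw [← hcard]
    refine Finset.card_le_card_of_injOn (fun w => w.toWord.headD y) ?_ ?_
    · intro w hw
      rw [Finset.mem_coe, Finset.mem_filter, mem_sphF] at hw
      obtain ⟨h1, h2⟩ := hw
      have h3 := hf w h1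
      rw [h2, hy] at h3
      have hlw : w.toWord.length = n + 2 := h1
      obtain ⟨z, tl', hz⟩ := List.exists_cons_of_length_eq_add_one hlw
      rw [hz, List.tail_cons] at h3
      have hred := FreeGroup.isReduced_toWord (x := w)
      rw [hz, ← h3, FreeGroup.isReduced_cons_cons] at hred
      show w.toWord.headD y ∈ (Finset.univ.erase ((y.1, !y.2) : α × Bool) : Finset (α × Bool))
      rw [hz, List.headD_cons, Finset.mem_erase]
      refine ⟨fun h => ?_, Finset.mem_univ _⟩
      have h4 := hred.1 (by rw [h])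
      rw [h] at h4
      simp at h4
    · intro a ha b hb hab
      rw [Finset.mem_coe, Finset.mem_filter, mem_sphF] at ha hb
      have ha3 := hf a ha.1
      have hb3 := hf b hb.1
      rw [ha.2] at ha3
      rw [hb.2] at hb3
      obtain ⟨z, tla, hz⟩ := List.exists_cons_of_length_eq_add_one (show a.toWord.length = n + 1 + 1 from ha.1)
      obtain ⟨z', tlb, hz'⟩ := List.exists_cons_of_length_eq_add_one (show b.toWord.length = n + 1 + 1 from hb.1)
      apply FreeGroup.toWord_injective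
      have hab' : a.toWord.headD y = b.toWord.headD y := hab
      rw [hz, hz', List.headD_cons, List.headD_cons] at hab'
      rw [hz, List.tail_cons] at ha3
      rw [hz', List.tail_cons] at hb3
      rw [hz, hz', hab', ← ha3, ← hb3]
  · refine Nat.mul_le_mul_left _ (Finset.card_le_card ?_)
    intro v hv
    obtain ⟨w, hw, rfl⟩ := Finset.mem_image.mp hv
    rw [mem_sphF] at hw ⊢
    rw [norm_eq, hf w hw, List.length_tail, ← norm_eq, hw]
    rfl

lemma card_sphF_le {q : ℕ} (hq : q + 1 = Fintype.card (α × Bool)) (hq1 : 1 ≤ q) (n : ℕ) :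
    (sphF α n).card ≤ ((sphF α 0).card + (sphF α 1).card) * q ^ n := by
  have key : ∀ n, (sphF α (n + 1)).card ≤ ((sphF α 0).card + (sphF α 1).card) * q ^ n := by
    intro n
    induction n with
    | zero => rw [pow_zero, mul_one]; exact Nat.le_add_left _ _
    | succ n ih =>
      have h1 := card_sphF_succ (α := α) n
      have h2 : Fintype.card (α × Bool) - 1 = q := by omega
      rw [h2] at h1
      calc (sphF α (n + 1 + 1)).card ≤ q * (sphF α (n + 1)).card := h1
        _ ≤ q * (((sphF α 0).card + (sphF α 1).card) * q ^ n) := Nat.mul_le_mul_left _ ih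
        _ = _ := by ring
  cases n with
  | zero => rw [pow_zero, mul_one]; exact Nat.le_add_right _ _
  | succ n =>
    refine (key n).trans (Nat.mul_le_mul_left _ ?_)
    exact Nat.pow_le_pow_right hq1 (Nat.le_succ n)

end Tree

section Select

/-- Selection of a good radius. -/
lemma exists_good_radius {s : ℕ → ℝ} (hs : ∀ n, 0 ≤ s n) {C ρ κ : ℝ} (hρ : 1 < ρ)
    (hκ : 0 < κ) (hκ1 : κ < 1) (hρκ : ρ * (1 - κ) < 1) (hsC : ∀ n, s n ≤ C * ρ ^ n)
    (hunb : ∀ K : ℝ, ∃ n, K ≤ s n) (K : ℝ) :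
    ∃ n, s n ≤ κ * ∑ i ∈ Finset.range (n + 1), s i ∧ K ≤ ∑ i ∈ Finset.range (n + 1), s i := by
  by_contra hcon
  push Not at hcon
  set S : ℕ → ℝ := fun n => ∑ i ∈ Finset.range (n + 1), s i with hS
  have hmono : Monotone S := by
    refine monotone_nat_of_le_succ fun n => ?_
    show S n ≤ S (n + 1)
    simp only [hS]
    rw [Finset.sum_range_succ _ (n + 1)]
    linarith [hs (n + 1)]
  obtain ⟨n0, hn0⟩ := hunb (max K 1)
  have hSn0 : max K 1 ≤ S n0 := hn0.trans
    (Finset.single_le_sum (f := s) (fun i _ => hs i) (Finset.mem_range.mpr (Nat.lt_succ_self n0)))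
  have hbig : ∀ n, n0 ≤ n → K ≤ S n := fun n hn =>
    (le_max_left _ _).trans (hSn0.trans (hmono hn))
  have hstep : ∀ n, n0 ≤ n → S n ≤ (1 - κ) * S (n + 1) := by
    intro n hn
    by_contra hc
    push Not at hc
    have h1 : s (n + 1) ≤ κ * S (n + 1) := by
      have h2 : S (n + 1) = S n + s (n + 1) := by
        simp only [hS]
        rw [Finset.sum_range_succ _ (n + 1)]
      rw [h2] at hc ⊢
      linarith
    exact absurd (hbig (n + 1) (by omega)) (not_le.mpr (hcon (n + 1) h1))
  have hgrow : ∀ j, S n0 ≤ (1 - κ) ^ j * S (n0 + j) := by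
    intro j
    induction j with
    | zero => rw [pow_zero, one_mul, add_zero]
    | succ j ih =>
      have h1 := hstep (n0 + j) (by omega)
      have h2 : (0 : ℝ) ≤ (1 - κ) ^ j := pow_nonneg (by linarith) _
      calc S n0 ≤ (1 - κ) ^ j * S (n0 + j) := ih
        _ ≤ (1 - κ) ^ j * ((1 - κ) * S (n0 + j + 1)) := mul_le_mul_of_nonneg_left h1 h2
        _ = _ := by rw [pow_succ]; rw [← add_assoc, mul_assoc]
  have hC0 : 0 ≤ C := by
    have := (hs 0).trans (hsC 0)
    rwa [pow_zero, mul_one] at this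
  have hSup : ∀ n, S n ≤ C * ρ / (ρ - 1) * ρ ^ n := by
    intro n
    calc S n ≤ ∑ i ∈ Finset.range (n + 1), C * ρ ^ i := Finset.sum_le_sum fun i _ => hsC i
      _ = C * ((ρ ^ (n + 1) - 1) / (ρ - 1)) := by rw [← Finset.mul_sum, geom_sum_eq hρ.ne']
      _ ≤ C * (ρ ^ (n + 1) / (ρ - 1)) := by
          refine mul_le_mul_of_nonneg_left ?_ hC0
          exact div_le_div_of_nonneg_right (by linarith) (by linarith)
      _ = _ := by rw [pow_succ]; ring
  have hlim : Tendsto (fun j : ℕ => (C * ρ / (ρ - 1) * ρ ^ n0) * (ρ * (1 - κ)) ^ j) atTop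
      (nhds ((C * ρ / (ρ - 1) * ρ ^ n0) * 0)) :=
    (tendsto_pow_atTop_nhds_zero_of_lt_one (mul_nonneg (by linarith) (by linarith))
      hρκ).const_mul _
  rw [mul_zero] at hlim
  obtain ⟨j, hj⟩ := (hlim.eventually_lt_const (show (0 : ℝ) < 1 by norm_num)).exists
  have h1 := hgrow j
  have h2 := hSup (n0 + j)
  have h3 : (0 : ℝ) ≤ (1 - κ) ^ j := pow_nonneg (by linarith) _
  have h4 : S n0 ≤ (C * ρ / (ρ - 1) * ρ ^ n0) * (ρ * (1 - κ)) ^ j := by
    refine h1.trans ((mul_le_mul_of_nonneg_left h2 h3).trans (le_of_eq ?_))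
    rw [pow_add, mul_pow]; ring
  have h5 : (1 : ℝ) ≤ S n0 := (le_max_right _ _).trans hSn0
  linarith

end Select

section Main

variable {α : Type*} [DecidableEq α] [Fintype α] {G : Type*} [Group G] (π : FreeGroup α →* G)

/-- The number of elements of length `n` in the kernel. -/
noncomputable def kerCount (n : ℕ) : ℕ :=
  open Classical in ((sphF α n).filter (fun w => π w = 1)).card

lemma ev_push_xi (n : ℕ) : ev (push π (xi α n)) 1 = kerCount π n := by
  classical
  unfold xi kerCount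
  rw [map_sum, ev_sum, Finset.card_filter, Nat.cast_sum]
  refine Finset.sum_congr rfl fun w _ => ?_
  rw [push_bs]
  split_ifs with h
  · rw [h, ev_bs_self, Nat.cast_one]
  · rw [ev_bs_ne h, Nat.cast_zero]

lemma norm_bs {X : Type*} (x : X) : ‖(bs x : V X)‖ = 1 := by
  rw [@norm_eq_sqrt_real_inner, inner_bs, ev_bs_self, Real.sqrt_one]

lemma kerCount_le_norm (n : ℕ) : (kerCount π n : ℝ) ≤ ‖push π (xi α n)‖ := by
  rw [← ev_push_xi, ← inner_bs]
  have := real_inner_le_norm (bs (1 : G)) (push π (xi α n))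
  rwa [norm_bs, one_mul] at this

lemma norm_push_xi_le (n : ℕ) : ‖push π (xi α n)‖ ≤ (sphF α n).card := by
  unfold xi
  rw [map_sum]
  refine (norm_sum_le _ _).trans ?_
  rw [Finset.sum_congr rfl (g := fun _ => (1 : ℝ)) fun w _ => by rw [push_bs, norm_bs],
    Finset.sum_const, nsmul_eq_mul, mul_one]

lemma xi_nonneg (n : ℕ) (w : FreeGroup α) : 0 ≤ ev (xi α n) w := by
  rw [ev_xi]; split_ifs <;> norm_num

lemma push_lt (g : FreeGroup α) (f : V (FreeGroup α)) :
    push π (lt g f) = lt (π g) (push π f) := by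
  unfold lt
  rw [push_push, push_push]
  congr 1
  congr 1
  funext x
  exact map_mul π g x

set_option maxHeartbeats 4000000 in
/-- Almost invariance from maximal cogrowth. -/
theorem almost_invariant {q : ℕ} (hq : q + 1 = Fintype.card (α × Bool)) (hq1 : 1 ≤ q)
    (hcog : ∀ c : ℝ, 0 < c → c < q → ∃ᶠ n in atTop, c ^ n ≤ (kerCount π n : ℝ)) {ε : ℝ}
    (hε : 0 < ε) (hε1 : ε ≤ 1) :
    ∃ η : V G, 0 < ‖η‖ ∧ ∀ s : α × Bool, (1 - ε) * ‖η‖ ^ 2 ≤ inner ℝ (lt (π (el s)) η) η := by
  have hq1' : (1 : ℝ) ≤ q := by exact_mod_cast hq1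
  have hqpos : (0 : ℝ) < q := by linarith
  have hqR : (q : ℝ) + 1 = Fintype.card (α × Bool) := by exact_mod_cast hq
  -- parameters
  set κ : ℝ := ε / 8 with hκ
  have hκ0 : 0 < κ := by rw [hκ]; linarith
  have hκ1 : κ ≤ 1 / 8 := by rw [hκ]; linarith
  set θ : ℝ := κ ^ 2 / (4 * q) with hθ
  have hθ0 : 0 < θ := by rw [hθ]; positivity
  have hθκ : θ * (4 * q) = κ ^ 2 := by rw [hθ]; field_simp
  have hθle : θ ≤ κ ^ 2 / 4 := by nlinarith
  have hθ1 : θ ≤ 1 := by nlinarith
  set t : ℝ := (1 + θ) / q with ht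
  have ht0 : 0 < t := by rw [ht]; positivity
  have htq : t * q = 1 + θ := by rw [ht]; field_simp
  have htinv : 1 / t ≤ q := by
    rw [div_le_iff₀ ht0]
    nlinarith
  have htinv' : (q : ℝ) * (1 - θ) ≤ 1 / t := by
    rw [le_div_iff₀ ht0]
    nlinarith
  set C0 : ℝ := (((sphF α 0).card + (sphF α 1).card : ℕ) : ℝ) with hC0
  set s : ℕ → ℝ := fun n => (t ^ n * ‖push π (xi α n)‖) ^ 2 with hs
  have hs0 : ∀ n, 0 ≤ s n := fun n => sq_nonneg _
  have hsC : ∀ n, s n ≤ C0 ^ 2 * ((1 + θ) ^ 2) ^ n := by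
    intro n
    have h1 := norm_push_xi_le π n
    have h2 : ((sphF α n).card : ℝ) ≤ C0 * (q : ℝ) ^ n := by
      have := card_sphF_le (α := α) hq hq1 n
      rw [hC0]
      exact_mod_cast this
    have h3 : t ^ n * ‖push π (xi α n)‖ ≤ C0 * (1 + θ) ^ n := by
      calc t ^ n * ‖push π (xi α n)‖ ≤ t ^ n * (C0 * (q : ℝ) ^ n) :=
            mul_le_mul_of_nonneg_left (h1.trans h2) (pow_nonneg ht0.le _)
        _ = C0 * (1 + θ) ^ n := by rw [← htq, mul_pow]; ring
    calc s n ≤ (C0 * (1 + θ) ^ n) ^ 2 := pow_le_pow_left₀ (by positivity) h3 2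
      _ = _ := by rw [mul_pow, ← pow_mul, ← pow_mul, mul_comm n 2]
  have hunb : ∀ K : ℝ, ∃ n, K ≤ s n := by
    intro K
    set c : ℝ := q / (1 + θ / 2) with hc
    have hc0 : 0 < c := by rw [hc]; positivity
    have hcq : c < q := by
      rw [hc, div_lt_iff₀ (by linarith)]
      nlinarith
    have htc : 1 < t * c := by
      rw [hc, mul_div_assoc', htq, one_lt_div (by linarith)]
      linarith
    have hT : Tendsto (fun n : ℕ => (t * c) ^ n) atTop atTop :=
      tendsto_pow_atTop_atTop_of_one_lt htc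
    obtain ⟨n, hn1, hn2⟩ := ((hcog c hc0 hcq).and_eventually
      (hT.eventually_ge_atTop (max K 1))).exists
    refine ⟨n, ?_⟩
    have h1 : (t * c) ^ n ≤ t ^ n * ‖push π (xi α n)‖ := by
      rw [mul_pow]
      exact mul_le_mul_of_nonneg_left (hn1.trans (kerCount_le_norm π n)) (pow_nonneg ht0.le _)
    have h2 : max K 1 ≤ t ^ n * ‖push π (xi α n)‖ := hn2.trans h1
    have h3 : 1 ≤ t ^ n * ‖push π (xi α n)‖ := (le_max_right _ _).trans h2
    have h4 : K ≤ t ^ n * ‖push π (xi α n)‖ := (le_max_left _ _).trans h2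
    show K ≤ (t ^ n * ‖push π (xi α n)‖) ^ 2
    nlinarith
  obtain ⟨n, hn1, hn2⟩ := exists_good_radius (κ := κ ^ 2) hs0
    (show 1 < (1 + θ) ^ 2 by nlinarith) (by positivity) (by nlinarith) (by nlinarith [sq_nonneg κ, mul_pos hθ0 hθ0, mul_nonneg hθ0.le (sq_nonneg κ)])
    hsC hunb ((8 * q / ε) ^ 2)
  set Sg : ℝ := ∑ i ∈ Finset.range (n + 1), s i with hSg
  set f := fn α t n with hf
  set η : V G := push π f with hη
  have hfnn : ∀ w, 0 ≤ ev f w := by
    intro w
    rw [hf, ev_fn]
    split_ifs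
    · exact pow_nonneg ht0.le _
    · exact le_rfl
  -- lower bound for the norm
  have hηnorm : Sg ≤ ‖η‖ ^ 2 := by
    have h1 : η = ∑ i ∈ Finset.range (n + 1), t ^ i • push π (xi α i) := by
      rw [hη, hf]
      unfold fn
      rw [map_sum]
      exact Finset.sum_congr rfl fun i _ => by rw [map_smul]
    rw [← real_inner_self_eq_norm_sq, h1, sum_inner]
    rw [hSg]
    refine Finset.sum_le_sum fun i hi => ?_
    rw [inner_sum]
    refine le_trans (le_of_eq ?_) (Finset.single_le_sum (f := fun j => inner ℝ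
      (t ^ i • push π (xi α i)) (t ^ j • push π (xi α j))) (fun j _ => ?_) hi)
    · show (t ^ i * ‖push π (xi α i)‖) ^ 2 = _
      rw [real_inner_self_eq_norm_sq, norm_smul, Real.norm_eq_abs,
        abs_of_nonneg (pow_nonneg ht0.le i)]
    · rw [real_inner_smul_left, real_inner_smul_right]
      exact mul_nonneg (pow_nonneg ht0.le _) (mul_nonneg (pow_nonneg ht0.le _)
        (inner_nonneg_of (push_nonneg _ (xi_nonneg i)) (push_nonneg _ (xi_nonneg j))))
  have hKpos : 0 < (8 * q / ε) ^ 2 := by positivity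
  have hηbig : 8 * q / ε ≤ ‖η‖ := by
    by_contra hc
    push Not at hc
    have := pow_lt_pow_left₀ hc (norm_nonneg _) (two_ne_zero)
    linarith
  have hηpos : 0 < ‖η‖ := lt_of_lt_of_le (by positivity) hηbig
  refine ⟨η, hηpos, ?_⟩
  -- the adjacency estimate
  have hadj : ((1 / t + q * t) * ‖η‖ ^ 2) ≤ ∑ x : α × Bool, inner ℝ (lt (π (el x)) η) η +
      (1 / t) * inner ℝ (bs (1 : G)) η + q * t ^ (n + 1) * inner ℝ (push π (xi α n)) η := by
    set d : V (FreeGroup α) := (∑ x : α × Bool, lt (el x) f) + (1 / t) • bs (1 : FreeGroup α) +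
      (q * t ^ (n + 1)) • xi α n + (-(1 / t + q * t)) • f with hd
    have hd0 : ∀ w, 0 ≤ ev d w := by
      intro w
      rw [hd, ev_add, ev_add, ev_add, ev_smul, ev_smul, ev_smul]
      have := adj_ineq (α := α) ht0 n w hqR hqpos.le
      rw [← hf] at this
      linarith
    have h1 := inner_nonneg_of (push_nonneg π hd0) (push_nonneg π hfnn)
    have h2 : push π d = (∑ x : α × Bool, lt (π (el x)) η) + (1 / t) • bs (1 : G) +
        (q * t ^ (n + 1)) • push π (xi α n) + (-(1 / t + q * t)) • η := by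
      rw [hd, map_add, map_add, map_add, map_smul, map_smul, map_smul, map_sum, push_bs,
        map_one, ← hη]
      congr 3
      exact Finset.sum_congr rfl fun x _ => by rw [push_lt]
    rw [h2, ← hη, inner_add_left, inner_add_left, inner_add_left, sum_inner,
      real_inner_smul_left, real_inner_smul_left, real_inner_smul_left,
      real_inner_self_eq_norm_sq] at h1
    linarith
  have hb1 : inner ℝ (bs (1 : G)) η ≤ ‖η‖ := by
    have := real_inner_le_norm (bs (1 : G)) η
    rwa [norm_bs, one_mul] at this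
  have hb2 : t ^ n * inner ℝ (push π (xi α n)) η ≤ κ * ‖η‖ ^ 2 := by
    have h1 := real_inner_le_norm (push π (xi α n)) η
    have h2 : t ^ n * ‖push π (xi α n)‖ ≤ κ * ‖η‖ := by
      have h3 : s n ≤ (κ * ‖η‖) ^ 2 := by
        rw [mul_pow]
        exact hn1.trans (mul_le_mul_of_nonneg_left hηnorm (sq_nonneg _))
      exact le_of_sq_le_sq h3 (by positivity)
    calc t ^ n * inner ℝ (push π (xi α n)) η ≤ t ^ n * (‖push π (xi α n)‖ * ‖η‖) :=
          mul_le_mul_of_nonneg_left h1 (pow_nonneg ht0.le _)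
      _ = (t ^ n * ‖push π (xi α n)‖) * ‖η‖ := by ring
      _ ≤ (κ * ‖η‖) * ‖η‖ := mul_le_mul_of_nonneg_right h2 hηpos.le
      _ = _ := by ring
  have htot : ((q : ℝ) + 1 - ε) * ‖η‖ ^ 2 ≤ ∑ x : α × Bool, inner ℝ (lt (π (el x)) η) η := by
    have h1 : (1 / t) * inner ℝ (bs (1 : G)) η ≤ (ε / 8) * ‖η‖ ^ 2 := by
      have h2 : (1 / t) * inner ℝ (bs (1 : G)) η ≤ q * ‖η‖ := by
        have h3 : (1 / t) * inner ℝ (bs (1 : G)) η ≤ (1 / t) * ‖η‖ :=
          mul_le_mul_of_nonneg_left hb1 (by positivity)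
        exact h3.trans (mul_le_mul_of_nonneg_right htinv hηpos.le)
      have h4 : (q : ℝ) ≤ (ε / 8) * ‖η‖ := by
        rw [div_le_iff₀ hε] at hηbig
        linarith
      nlinarith
    have h2 : q * t ^ (n + 1) * inner ℝ (push π (xi α n)) η ≤ 2 * (κ * ‖η‖ ^ 2) := by
      have h3 : q * t ^ (n + 1) * inner ℝ (push π (xi α n)) η =
          (1 + θ) * (t ^ n * inner ℝ (push π (xi α n)) η) := by
        rw [← htq, pow_succ]; ring
      rw [h3]
      have h4 : (1 + θ) * (t ^ n * inner ℝ (push π (xi α n)) η) ≤ (1 + θ) * (κ * ‖η‖ ^ 2) :=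
        mul_le_mul_of_nonneg_left hb2 (by linarith)
      have h5 : (1 + θ) * (κ * ‖η‖ ^ 2) ≤ 2 * (κ * ‖η‖ ^ 2) :=
        mul_le_mul_of_nonneg_right (by linarith) (by positivity)
      linarith
    have h3 : ((q : ℝ) + 1 - ε / 8) * ‖η‖ ^ 2 ≤ (1 / t + q * t) * ‖η‖ ^ 2 := by
      refine mul_le_mul_of_nonneg_right ?_ (by positivity)
      have h5 : (q : ℝ) * θ ≤ ε / 8 := by nlinarith
      have h6 : (q : ℝ) * t = 1 + θ := by rw [← htq]; ring
      rw [h6]
      nlinarith
    have h7 : (ε / 8) * ‖η‖ ^ 2 + 2 * (κ * ‖η‖ ^ 2) + (ε / 8) * ‖η‖ ^ 2 ≤ ε * ‖η‖ ^ 2 := by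
      rw [hκ]
      nlinarith [sq_nonneg ‖η‖]
    linarith
  intro x
  rw [← Finset.add_sum_erase _ _ (Finset.mem_univ x)] at htot
  have h1 : ∑ y ∈ Finset.univ.erase x, inner ℝ (lt (π (el y)) η) η ≤ q * ‖η‖ ^ 2 := by
    refine (Finset.sum_le_sum fun y _ => inner_lt_le (π (el y)) η).trans ?_
    rw [Finset.sum_const, nsmul_eq_mul, Finset.card_erase_of_mem (Finset.mem_univ x),
      Finset.card_univ]
    have h3 : ((Fintype.card (α × Bool) - 1 : ℕ) : ℝ) = q := by
      have : Fintype.card (α × Bool) - 1 = q := by omega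
      rw [this]
    rw [h3]
  linarith

end Main

section Words

variable {α : Type*} {G : Type*} [Group G] (π : FreeGroup α →* G)

/-- Almost invariance for words. -/
theorem almost_words {η : V G} {δ : ℝ}
    (h : ∀ s : α × Bool, (1 - δ ^ 2 / 2) * ‖η‖ ^ 2 ≤ inner ℝ (lt (π (el s)) η) η) (hδ : 0 ≤ δ)
    (L : List (α × Bool)) : ‖lt (π (FreeGroup.mk L)) η - η‖ ≤ L.length * δ * ‖η‖ := by
  have h1 : ∀ s : α × Bool, ‖lt (π (el s)) η - η‖ ≤ δ * ‖η‖ := by
    intro s
    refine le_of_sq_le_sq ?_ (by positivity)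
    rw [norm_lt_sub_sq, mul_pow]
    linarith [h s]
  induction L with
  | nil =>
    have : (FreeGroup.mk ([] : List (α × Bool))) = 1 := rfl
    rw [this, map_one, lt_one, sub_self, norm_zero]
    simp
  | cons s L ih =>
    have h2 : (FreeGroup.mk (s :: L)) = el s * FreeGroup.mk L := by
      unfold el
      rw [FreeGroup.mul_mk]
      rfl
    rw [h2, map_mul, lt_mul]
    have h3 : lt (π (el s)) (lt (π (FreeGroup.mk L)) η) - η =
        lt (π (el s)) (lt (π (FreeGroup.mk L)) η - η) + (lt (π (el s)) η - η) := by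
      rw [map_sub]; abel
    rw [h3, List.length_cons]
    refine (norm_add_le _ _).trans ?_
    rw [norm_lt]
    have := add_le_add ih (h1 s)
    push_cast
    linarith

end Words

end Pool.Agent.Cogrowth637
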