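import Pool.Agent.Cogrowth637.Almost

/-!
# Multivariate cogrowth: definitions and the main comparison
-/

namespace Pool.Agent.Cogrowth637

open Filter
open scoped ENNReal

variable {m : ℕ}

/-- `wp w i` is the number of letters of the reduced word of `w` equal to `a_i` or its inverse. -/
def wp (w : FreeGroup (Fin m)) (i : Fin m) : ℕ := (w.toWord.map Prod.fst).count i

/-- The vector of the numbers `wp w i` in `ℝ^m`. -/
def wpVec (w : FreeGroup (Fin m)) : Fin m → ℝ := fun i => (wp w i : ℝ)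

/-- The `ℓ¹` norm on `ℝ^m`. -/
def l1 (x : Fin m → ℝ) : ℝ := ∑ i, |x i|

/-- The counting measure `ν_H`: the mass of `B` is the number of `w ∈ H` with `wpVec w ∈ B`. -/
noncomputable def nu (H : Subgroup (FreeGroup (Fin m))) (B : Set (Fin m → ℝ)) : ℝ≥0∞ :=
  (({w | w ∈ H ∧ wpVec w ∈ B} : Set (FreeGroup (Fin m))).encard : ℝ≥0∞)

/-- Open cones in `ℝ^m`. -/
def IsOpenCone (C : Set (Fin m → ℝ)) : Prop :=
  IsOpen C ∧ ∀ x ∈ C, ∀ t : ℝ, 0 < t → t • x ∈ C

/-- `τ_{H,C}`, the upper exponential growth rate of `H` inside the cone `C`. -/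
noncomputable def tau (H : Subgroup (FreeGroup (Fin m))) (C : Set (Fin m → ℝ)) : EReal :=
  limsup (fun R : ℝ => ENNReal.log (nu H ({x | R ≤ l1 x ∧ l1 x < R + 1} ∩ C)) / (R : EReal)) atTop

/-- The multivariate cogrowth `ψ_H` in direction `r`. -/
noncomputable def psi (H : Subgroup (FreeGroup (Fin m))) (r : Fin m → ℝ) : EReal :=
  ⨅ (C : Set (Fin m → ℝ)) (_ : IsOpenCone C ∧ r ∈ C), tau H C

lemma sum_count (l : List (Fin m)) : ∑ i, l.count i = l.length := by
  induction l with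
  | nil => simp
  | cons a l ih =>
    simp only [List.count_cons, Finset.sum_add_distrib, ih, List.length_cons]
    congr 1
    simp

/-- The vector of letter counts of a list. -/
def lvec (l : List (Fin m × Bool)) : Fin m → ℝ := fun i => ((l.map Prod.fst).count i : ℝ)

lemma lvec_append (a b : List (Fin m × Bool)) : lvec (a ++ b) = lvec a + lvec b := by
  funext i
  unfold lvec
  rw [List.map_append, List.count_append]
  push_cast
  rfl

lemma wpVec_eq (w : FreeGroup (Fin m)) : wpVec w = lvec w.toWord := rfl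

lemma l1_lvec (l : List (Fin m × Bool)) : l1 (lvec l) = l.length := by
  unfold l1 lvec
  have h : ∀ i : Fin m, |((l.map Prod.fst).count i : ℝ)| = ((l.map Prod.fst).count i : ℝ) :=
    fun i => abs_of_nonneg (Nat.cast_nonneg _)
  rw [Finset.sum_congr rfl fun i _ => h i, ← Nat.cast_sum, sum_count, List.length_map]

lemma l1_wpVec (w : FreeGroup (Fin m)) : l1 (wpVec w) = w.norm := l1_lvec _

lemma l1_add (x y : Fin m → ℝ) : l1 (x + y) ≤ l1 x + l1 y := by
  unfold l1
  rw [← Finset.sum_add_distrib]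
  exact Finset.sum_le_sum fun i _ => abs_add_le _ _

lemma l1_sub (x y : Fin m → ℝ) : l1 (x - y) ≤ l1 x + l1 y := by
  unfold l1
  rw [← Finset.sum_add_distrib]
  exact Finset.sum_le_sum fun i _ => abs_sub _ _

lemma l1_smul (t : ℝ) (x : Fin m → ℝ) : l1 (t • x) = |t| * l1 x := by
  unfold l1
  rw [Finset.mul_sum]
  exact Finset.sum_congr rfl fun i _ => by rw [Pi.smul_apply, smul_eq_mul, abs_mul]

lemma l1_simplex {r : Fin m → ℝ} (hr : r ∈ stdSimplex ℝ (Fin m)) : l1 r = 1 := by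
  unfold l1
  rw [← hr.2]
  exact Finset.sum_congr rfl fun i _ => abs_of_nonneg (hr.1 i)

lemma wp_inv (w : FreeGroup (Fin m)) : wpVec w⁻¹ = wpVec w := by
  funext i
  unfold wpVec wp
  rw [FreeGroup.toWord_inv]
  unfold FreeGroup.invRev
  rw [List.map_reverse, List.count_reverse, List.map_map]
  congr 2

lemma continuous_l1 : Continuous (l1 (m := m)) := by
  unfold l1
  fun_prop

/-- The cone around `r`. -/
def coneAt (r : Fin m → ℝ) (δ : ℝ) : Set (Fin m → ℝ) := {x | l1 (x - l1 x • r) < δ * l1 x}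

lemma coneAt_isOpenCone (r : Fin m → ℝ) (δ : ℝ) : IsOpenCone (coneAt r δ) := by
  refine ⟨?_, ?_⟩
  · have h1 : Continuous fun x : Fin m → ℝ => l1 (x - l1 x • r) :=
      continuous_l1.comp (continuous_id.sub (continuous_l1.smul continuous_const))
    have h2 : Continuous fun x : Fin m → ℝ => δ * l1 x := continuous_const.mul continuous_l1
    exact isOpen_lt h1 h2
  · intro x hx t ht
    show l1 (t • x - l1 (t • x) • r) < δ * l1 (t • x)
    rw [l1_smul, abs_of_pos ht]
    have h1 : t • x - (t * l1 x) • r = t • (x - l1 x • r) := by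
      rw [smul_sub, smul_smul]
    rw [h1, l1_smul, abs_of_pos ht]
    have h2 : l1 (x - l1 x • r) < δ * l1 x := hx
    nlinarith

lemma mem_coneAt {r : Fin m → ℝ} (hr : r ∈ stdSimplex ℝ (Fin m)) {δ : ℝ} (hδ : 0 < δ) :
    r ∈ coneAt r δ := by
  show l1 (r - l1 r • r) < δ * l1 r
  rw [l1_simplex hr, one_smul, sub_self, mul_one]
  unfold l1
  simpa using hδ

lemma exists_cone {r : Fin m → ℝ} {C : Set (Fin m → ℝ)} (hC : IsOpenCone C) (hr : r ∈ C) :
    ∃ δ : ℝ, 0 < δ ∧ ∀ x : Fin m → ℝ, 0 < l1 x → l1 (x - l1 x • r) ≤ δ * l1 x → x ∈ C := by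
  obtain ⟨ε, hε, hball⟩ := Metric.isOpen_iff.mp hC.1 r hr
  refine ⟨ε / 2, by linarith, fun x hx hx' => ?_⟩
  have h1 : (l1 x)⁻¹ • x ∈ C := by
    apply hball
    rw [Metric.mem_ball, dist_pi_lt_iff hε]
    intro i
    rw [Real.dist_eq, Pi.smul_apply, smul_eq_mul]
    have h2 : |x i - l1 x * r i| ≤ l1 (x - l1 x • r) :=
      Finset.single_le_sum (f := fun i => |(x - l1 x • r) i|) (fun _ _ => abs_nonneg _)
        (Finset.mem_univ i)
    have h3 : (l1 x)⁻¹ * x i - r i = (l1 x)⁻¹ * (x i - l1 x * r i) := by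
      field_simp
    rw [h3, abs_mul, abs_of_pos (inv_pos.mpr hx), inv_mul_lt_iff₀ hx]
    nlinarith
  have h2 := hC.2 _ h1 (l1 x) hx
  rwa [smul_smul, mul_inv_cancel₀ hx.ne', one_smul] at h2

lemma nu_mono {H K : Subgroup (FreeGroup (Fin m))} (h : H ≤ K) (B : Set (Fin m → ℝ)) :
    nu H B ≤ nu K B := by
  unfold nu
  have : ({w | w ∈ H ∧ wpVec w ∈ B} : Set (FreeGroup (Fin m))).encard ≤
      ({w | w ∈ K ∧ wpVec w ∈ B} : Set (FreeGroup (Fin m))).encard :=
    Set.encard_le_encard fun w hw => ⟨h hw.1, hw.2⟩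
  exact_mod_cast this

lemma tau_mono {H K : Subgroup (FreeGroup (Fin m))} (h : H ≤ K) (C : Set (Fin m → ℝ)) :
    tau H C ≤ tau K C := by
  refine limsup_le_limsup ?_
  filter_upwards [eventually_ge_atTop (0 : ℝ)] with R hR
  exact EReal.div_le_div_right_of_nonneg (by exact_mod_cast hR) (ENNReal.log_le_log (nu_mono h _))

lemma psi_mono {H K : Subgroup (FreeGroup (Fin m))} (h : H ≤ K) (r : Fin m → ℝ) :
    psi H r ≤ psi K r :=
  iInf₂_mono fun C _ => tau_mono h C

/-- Bound for the elements in a shell. -/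
lemma shell_subset {R : ℝ} (hR : 0 < R) {w : FreeGroup (Fin m)} (h1 : R ≤ l1 (wpVec w))
    (h2 : l1 (wpVec w) < R + 1) : w.norm = ⌈R⌉₊ := by
  rw [l1_wpVec] at h1 h2
  refine le_antisymm ?_ (Nat.ceil_le.mpr h1)
  have h3 : (w.norm : ℝ) < ⌈R⌉₊ + 1 := lt_of_lt_of_le h2 (by linarith [Nat.le_ceil R])
  have h4 : w.norm < ⌈R⌉₊ + 1 := by exact_mod_cast h3
  omega

end Pool.Agent.Cogrowth637
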