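import Pool.Agent.Cogrowth637.Words

/-!
# Equality of multivariate cogrowth and growth for amenable quotients
-/

namespace Pool.Agent.Cogrowth637

open Filter
open scoped ENNReal RealInnerProductSpace

variable {m : ℕ}

/-- Almost invariant vectors for the quotient by `N`. -/
def AI (N : Subgroup (FreeGroup (Fin m))) [N.Normal] : Prop :=
  ∀ ε : ℝ, 0 < ε → ε ≤ 1 → ∃ η : V (FreeGroup (Fin m) ⧸ N), 0 < ‖η‖ ∧
    ∀ s : Fin m × Bool, (1 - ε) * ‖η‖ ^ 2 ≤
      inner ℝ (lt (QuotientGroup.mk' N (el s)) η) η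

/-- The shell. -/
def shell (m : ℕ) (R : ℝ) : Set (Fin m → ℝ) := {x | R ≤ l1 x ∧ l1 x < R + 1}

lemma cnt_le_nu (N : Subgroup (FreeGroup (Fin m))) [N.Normal]
    {sep : Fin m × Bool → Option (Fin m × Bool) → List (Fin m × Bool)}
    {L : ℕ} (hL : 1 ≤ L) (h1 : ∀ x yo, (sep x yo).length = L)
    (h2 : ∀ x yo, FreeGroup.mk (sep x yo) ∈ N)
    (h3 : ∀ x yo, FreeGroup.IsReduced (x :: sep x yo))
    (h4 : ∀ x yo, FreeGroup.IsReduced (sep x yo ++ yo.toList))
    {r : Fin m → ℝ} (hr : r ∈ stdSimplex ℝ (Fin m)) {k n : ℕ} (hn : 1 ≤ n) (hk : 1 ≤ k)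
    {W : Finset (FreeGroup (Fin m))}
    (hW : ∀ w ∈ W, w.norm = n) {δ : ℝ} (hWδ : ∀ w ∈ W, l1 (wpVec w - (n : ℝ) • r) ≤ δ / 2 * n)
    (hδ : 0 < δ) (hnL : 2 * (L : ℝ) ≤ δ / 2 * n) {C : Set (Fin m → ℝ)}
    (hC : ∀ x : Fin m → ℝ, 0 < l1 x → l1 (x - l1 x • r) ≤ δ * l1 x → x ∈ C) :
    ((cnt (QuotientGroup.mk' N) W k : ℕ) : ℝ≥0∞) ≤
      nu N (shell m ((k * (n + L) : ℕ) : ℝ) ∩ C) := by
  classical
  unfold cnt nu
  set F := (tuples W k).filter (fun l => QuotientGroup.mk' N l.prod = 1) with hF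
  have hred : ∀ l ∈ F, FreeGroup.IsReduced (rword sep l) ∧
      (rword sep l).length = k * (n + L) := fun l hl =>
    rword_reduced hn hW hL h1 h3 h4 (Finset.mem_filter.mp hl).1
  have htw : ∀ l ∈ F, (FreeGroup.mk (rword sep l)).toWord = rword sep l := fun l hl => by
    rw [FreeGroup.toWord_mk, (hred l hl).1.reduce_eq]
  have hinj : Set.InjOn (fun l => FreeGroup.mk (rword sep l)) (F : Set (List (FreeGroup (Fin m)))) := by
    intro a ha b hb hab
    have h5 : (FreeGroup.mk (rword sep a)).toWord = (FreeGroup.mk (rword sep b)).toWord :=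
      congrArg FreeGroup.toWord hab
    rw [htw a ha, htw b hb] at h5
    exact rword_inj hn hW h1 (Finset.mem_filter.mp ha).1 (Finset.mem_filter.mp hb).1 h5
  have hsub : (fun l => FreeGroup.mk (rword sep l)) '' (F : Set (List (FreeGroup (Fin m)))) ⊆
      {w | w ∈ N ∧ wpVec w ∈ shell m ((k * (n + L) : ℕ) : ℝ) ∩ C} := by
    rintro _ ⟨l, hl, rfl⟩
    have hl' := Finset.mem_filter.mp hl
    have hvec : wpVec (FreeGroup.mk (rword sep l)) = lvec (rword sep l) := by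
      rw [wpVec_eq, htw l hl]
    have hl1 : l1 (wpVec (FreeGroup.mk (rword sep l))) = ((k * (n + L) : ℕ) : ℝ) := by
      rw [hvec, l1_lvec, (hred l hl).2]
    refine ⟨?_, ⟨?_, ?_⟩, ?_⟩
    · rw [← QuotientGroup.eq_one_iff]
      have h6 := rword_map (sep := sep) (QuotientGroup.mk' N)
        (fun x yo => (QuotientGroup.eq_one_iff _).mpr (h2 x yo)) hn hW hl'.1
      exact h6.trans hl'.2
    · exact hl1.ge
    · show l1 (wpVec (FreeGroup.mk (rword sep l))) < _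
      rw [hl1]; linarith
    · apply hC
      · rw [hl1]
        have : 0 < k * (n + L) := Nat.mul_pos hk (by omega)
        exact_mod_cast this
      · rw [hl1, hvec]
        refine (rword_vec hr hn hW hWδ h1 hl'.1).trans ?_
        push_cast
        have hk0 : (0 : ℝ) ≤ k := Nat.cast_nonneg _
        have hL0 : (0 : ℝ) ≤ L := Nat.cast_nonneg _
        have h7 : (k : ℝ) * (δ / 2 * n + 2 * L) ≤ k * (δ * n) :=
          mul_le_mul_of_nonneg_left (by linarith) hk0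
        have h8 : 0 ≤ δ * (k * L) := by positivity
        nlinarith
  have h9 : ((F.card : ℕ) : ℕ∞) ≤ ({w | w ∈ N ∧ wpVec w ∈
      shell m ((k * (n + L) : ℕ) : ℝ) ∩ C} : Set (FreeGroup (Fin m))).encard := by
    rw [← Set.encard_coe_eq_coe_finsetCard, ← hinj.encard_image]
    exact Set.encard_le_encard hsub
  have h10 : ((F.card : ℕ) : ℝ≥0∞) ≤ ((({w | w ∈ N ∧ wpVec w ∈
      shell m ((k * (n + L) : ℕ) : ℝ) ∩ C} : Set (FreeGroup (Fin m))).encard : ℕ∞) : ℝ≥0∞) := by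
    exact_mod_cast h9
  convert h10

lemma card_ge_of_log {C : Set (Fin m → ℝ)} {b R : ℝ} (hR : 0 < R)
    (h : (b : EReal) < ENNReal.log (nu (⊤ : Subgroup (FreeGroup (Fin m))) (shell m R ∩ C)) /
      (R : EReal)) {W : Finset (FreeGroup (Fin m))}
    (hW : ∀ w, w.norm = ⌈R⌉₊ → wpVec w ∈ C → w ∈ W) : Real.exp (b * R) ≤ W.card := by
  have h1 := (EReal.lt_div_iff (by exact_mod_cast hR) (EReal.coe_ne_top R)).mp h
  have h2 : ((b * R : ℝ) : EReal) = ENNReal.log (ENNReal.ofReal (Real.exp (b * R))) := by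
    rw [ENNReal.log_ofReal_of_pos (Real.exp_pos _), Real.log_exp]
  rw [← EReal.coe_mul, h2, ENNReal.log_lt_log_iff] at h1
  have h3 : nu (⊤ : Subgroup (FreeGroup (Fin m))) (shell m R ∩ C) ≤ (W.card : ℝ≥0∞) := by
    unfold nu
    have h4 : ({w | w ∈ (⊤ : Subgroup (FreeGroup (Fin m))) ∧ wpVec w ∈ shell m R ∩ C} :
        Set (FreeGroup (Fin m))).encard ≤ (W.card : ℕ∞) := by
      rw [← Set.encard_coe_eq_coe_finsetCard]
      refine Set.encard_le_encard ?_
      rintro w ⟨_, ⟨ha, hb⟩, hc⟩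
      exact hW w (shell_subset hR ha hb) hc
    exact_mod_cast h4
  have h5 := h1.le.trans h3
  have h6 : ENNReal.ofReal (Real.exp (b * R)) ≤ ENNReal.ofReal (W.card : ℝ) := by
    rw [ENNReal.ofReal_natCast]; exact h5
  exact (ENNReal.ofReal_le_ofReal_iff (Nat.cast_nonneg _)).mp h6

theorem psi_top_le (hm : 2 ≤ m) (N : Subgroup (FreeGroup (Fin m))) [N.Normal] (hAI : AI N)
    {v : FreeGroup (Fin m)} (hv : v ∈ N) (hv1 : v ≠ 1) {r : Fin m → ℝ}
    (hr : r ∈ stdSimplex ℝ (Fin m)) : psi ⊤ r ≤ psi N r := by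
  classical
  choose sep hs1 hs2 hs3 hs4 using exists_sep hm N hv hv1
  set L : ℕ := v.norm + 4 with hLdef
  have hL1 : 1 ≤ L := by omega
  refine le_iInf₂ fun C hC => ?_
  obtain ⟨δ, hδ, hδC⟩ := exists_cone hC.1 hC.2
  refine le_of_forall_lt fun c hc => ?_
  obtain ⟨b, hcb, hb⟩ := EReal.lt_iff_exists_real_btwn.mp hc
  obtain ⟨b', hbb', hb'⟩ := EReal.lt_iff_exists_real_btwn.mp hb
  have hbb : b < b' := by exact_mod_cast hbb'
  refine lt_of_lt_of_le hcb ?_
  refine le_limsup_of_frequently_le' ?_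
  rw [frequently_atTop]
  intro a
  -- choose R
  have htau : (b' : EReal) < tau ⊤ (coneAt r (δ / 2)) :=
    lt_of_lt_of_le hb' (iInf₂_le _ ⟨coneAt_isOpenCone r (δ / 2), mem_coneAt hr (by linarith)⟩)
  have hfreq := frequently_lt_of_lt_limsup (by isBoundedDefault) htau
  obtain ⟨R, hRlog, hR0⟩ := (hfreq.and_eventually (eventually_ge_atTop
    (max 1 (max (4 * L / δ) ((|b'| + Real.log 2 + |b| * L + 1) / (b' - b)))))).exists
  have hR1 : 1 ≤ R := (le_max_left _ _).trans hR0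
  have hR2 : 4 * L / δ ≤ R := ((le_max_left _ _).trans (le_max_right _ _)).trans hR0
  have hR3 : (|b'| + Real.log 2 + |b| * L + 1) / (b' - b) ≤ R :=
    ((le_max_right _ _).trans (le_max_right _ _)).trans hR0
  have hRpos : 0 < R := by linarith
  set n : ℕ := ⌈R⌉₊ with hn
  have hRn : R ≤ n := Nat.le_ceil R
  have hnR : (n : ℝ) < R + 1 := Nat.ceil_lt_add_one hRpos.le
  have hn1 : 1 ≤ n := Nat.one_le_ceil_iff.mpr hRpos
  have hn0 : (0 : ℝ) < n := by linarith
  -- the set W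
  set W : Finset (FreeGroup (Fin m)) :=
    (sphF (Fin m) n).filter (fun w => wpVec w ∈ coneAt r (δ / 2)) with hWdef
  have hWn : ∀ w ∈ W, w.norm = n := fun w hw => mem_sphF.mp (Finset.mem_filter.mp hw).1
  have hWinv : ∀ w ∈ W, w⁻¹ ∈ W := by
    intro w hw
    obtain ⟨h1, h2⟩ := Finset.mem_filter.mp hw
    refine Finset.mem_filter.mpr ⟨mem_sphF.mpr ?_, ?_⟩
    · rw [FreeGroup.norm_inv_eq]; exact mem_sphF.mp h1
    · rw [wp_inv]; exact h2
  have hWδ : ∀ w ∈ W, l1 (wpVec w - (n : ℝ) • r) ≤ δ / 2 * n := by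
    intro w hw
    have h1 : l1 (wpVec w - l1 (wpVec w) • r) < δ / 2 * l1 (wpVec w) := (Finset.mem_filter.mp hw).2
    rw [l1_wpVec, hWn w hw] at h1
    exact h1.le
  have hcard : Real.exp (b' * R) ≤ W.card := card_ge_of_log hRpos hRlog fun w hw hw' =>
    Finset.mem_filter.mpr ⟨mem_sphF.mpr hw, hw'⟩
  -- almost invariant vector
  obtain ⟨η, hη0, hη⟩ := hAI ((1 / n) ^ 2 / 2) (by positivity) (by
    have : (1 : ℝ) / n ≤ 1 := by
      rw [div_le_one hn0]; exact_mod_cast hn1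
    have h0 : (0 : ℝ) ≤ 1 / n := by positivity
    nlinarith)
  have hWη : ∀ w ∈ W, 1 / 2 * ‖η‖ ^ 2 ≤ inner ℝ (lt (QuotientGroup.mk' N w) η) η := by
    intro w hw
    have h1 := almost_words (QuotientGroup.mk' N) hη (by positivity) w.toWord
    rw [FreeGroup.mk_toWord, ← norm_eq, hWn w hw, mul_one_div_cancel hn0.ne', one_mul] at h1
    have h2 := norm_lt_sub_sq (QuotientGroup.mk' N w) η
    have h3 := pow_le_pow_left₀ (norm_nonneg _) h1 2
    linarith
  obtain ⟨c0, hc0, hcnt⟩ := cnt_lower (QuotientGroup.mk' N) hWinv hη0 hWη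
  -- choose j
  have hT : Tendsto (fun j : ℕ => (2 : ℝ) ^ (j + 1)) atTop atTop :=
    (tendsto_pow_atTop_atTop_of_one_lt (by norm_num : (1 : ℝ) < 2)).comp (tendsto_add_atTop_nat 1)
  obtain ⟨j, hj⟩ := (hT.eventually_ge_atTop (max a (-Real.log c0))).exists
  have hja : a ≤ (2 : ℝ) ^ (j + 1) := (le_max_left _ _).trans hj
  have hjc : -Real.log c0 ≤ (2 : ℝ) ^ (j + 1) := (le_max_right _ _).trans hj
  set K : ℕ := 2 ^ (j + 1) with hK
  have hKR : (K : ℝ) = (2 : ℝ) ^ (j + 1) := by rw [hK]; push_cast; rfl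
  have hK1 : 1 ≤ K := Nat.one_le_two_pow
  have hKpos : (0 : ℝ) < K := by exact_mod_cast hK1
  have hnL1 : (1 : ℝ) ≤ ((n + L : ℕ) : ℝ) := by exact_mod_cast (by omega : 1 ≤ n + L)
  refine ⟨((K * (n + L) : ℕ) : ℝ), ?_, ?_⟩
  · show a ≤ _
    rw [Nat.cast_mul]
    rw [← hKR] at hja
    nlinarith
  · have hpos : (0 : ℝ) < ((K * (n + L) : ℕ) : ℝ) := by
      rw [Nat.cast_mul]; positivity
    show (b : EReal) ≤ ENNReal.log (nu N (shell m ((K * (n + L) : ℕ) : ℝ) ∩ C)) /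
      ((((K * (n + L) : ℕ) : ℝ) : ℝ) : EReal)
    rw [EReal.le_div_iff_mul_le (by exact_mod_cast hpos) (EReal.coe_ne_top _)]
    have h1 := cnt_le_nu N hL1 hs1 hs2 hs3 hs4 hr hn1 hK1 hWn hWδ hδ (by
      rw [div_le_iff₀ hδ] at hR2
      nlinarith) hδC
    have h2 : ENNReal.ofReal (c0 * (Real.exp (b' * R) / 2) ^ K) ≤
        nu N (shell m ((K * (n + L) : ℕ) : ℝ) ∩ C) := by
      refine le_trans ?_ h1
      rw [← ENNReal.ofReal_natCast]
      refine ENNReal.ofReal_le_ofReal ?_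
      refine le_trans ?_ (hcnt j)
      refine mul_le_mul_of_nonneg_left ?_ hc0.le
      exact pow_le_pow_left₀ (by positivity) (by linarith) _
    refine le_trans ?_ (ENNReal.log_le_log h2)
    rw [ENNReal.log_ofReal_of_pos (by positivity), Real.log_mul hc0.ne' (by positivity),
      Real.log_pow, Real.log_div (by positivity) (by norm_num), Real.log_exp, ← EReal.coe_mul,
      EReal.coe_le_coe_iff]
    rw [Nat.cast_mul]
    -- real inequality
    rw [div_le_iff₀ (by linarith)] at hR3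
    have h3 : |b'| * 1 ≥ b' * (n - R) := by
      have h4 : b' * (n - R) ≤ |b'| * (n - R) :=
        mul_le_mul_of_nonneg_right (le_abs_self b') (by linarith)
      have h5 : |b'| * (n - R) ≤ |b'| * 1 := mul_le_mul_of_nonneg_left (by linarith) (abs_nonneg _)
      linarith
    have h4 : b * L ≤ |b| * L := mul_le_mul_of_nonneg_right (le_abs_self b) (Nat.cast_nonneg _)
    have h5 : (b' - b) * R ≤ (b' - b) * n := mul_le_mul_of_nonneg_left hRn (by linarith)
    have h6 : 1 ≤ b' * R - Real.log 2 - b * ((n + L : ℕ) : ℝ) := by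
      push_cast
      nlinarith
    have h7 : (K : ℝ) * 1 ≤ K * (b' * R - Real.log 2 - b * ((n + L : ℕ) : ℝ)) :=
      mul_le_mul_of_nonneg_left h6 hKpos.le
    rw [← hKR] at hjc
    nlinarith

theorem psi_eq (hm : 2 ≤ m) (N : Subgroup (FreeGroup (Fin m))) [N.Normal] (hAI : AI N)
    {v : FreeGroup (Fin m)} (hv : v ∈ N) (hv1 : v ≠ 1) {r : Fin m → ℝ}
    (hr : r ∈ stdSimplex ℝ (Fin m)) : psi N r = psi ⊤ r :=
  le_antisymm (psi_mono le_top r) (psi_top_le hm N hAI hv hv1 hr)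

end Pool.Agent.Cogrowth637
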