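import Mathlib

/-!
# Finitely supported functions as an inner product space, and counting random products
-/

namespace Pool.Agent.Cogrowth637

open scoped RealInnerProductSpace

/-- Finitely supported real functions on `X` with the `ℓ²` inner product. -/
def V (X : Type*) : Type _ := X →₀ ℝ

noncomputable instance (X : Type*) : AddCommGroup (V X) := inferInstanceAs (AddCommGroup (X →₀ ℝ))
noncomputable instance (X : Type*) : Module ℝ (V X) := inferInstanceAs (Module ℝ (X →₀ ℝ))

/-- Value at a point. -/
def ev {X : Type*} (f : V X) (x : X) : ℝ := (show X →₀ ℝ from f) x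

/-- The `ℓ²` product. -/
noncomputable def ip {X : Type*} (f g : V X) : ℝ :=
  Finsupp.sum (show X →₀ ℝ from f) fun x a => a * ev g x

lemma ip_eq_sum {X : Type*} (f g : V X) (S : Finset X)
    (h : (show X →₀ ℝ from f).support ⊆ S) : ip f g = ∑ x ∈ S, ev f x * ev g x := by
  unfold ip
  exact Finsupp.sum_of_support_subset _ h _ (fun x _ => zero_mul _)

noncomputable instance core (X : Type*) : InnerProductSpace.Core ℝ (V X) where
  inner f g := ip f g
  conj_inner_symm f g := by
    classical
    rw [conj_trivial, ip_eq_sum g f ((show X →₀ ℝ from f).support ∪ (show X →₀ ℝ from g).support)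
      Finset.subset_union_right, ip_eq_sum f g ((show X →₀ ℝ from f).support ∪
      (show X →₀ ℝ from g).support) Finset.subset_union_left]
    exact Finset.sum_congr rfl fun x _ => mul_comm _ _
  re_inner_nonneg f := by
    show 0 ≤ ip f f
    rw [ip_eq_sum f f _ (Finset.Subset.refl _)]
    exact Finset.sum_nonneg fun x _ => mul_self_nonneg _
  add_left f g h := by
    classical
    rw [ip_eq_sum f h ((show X →₀ ℝ from f).support ∪ (show X →₀ ℝ from g).support)
      Finset.subset_union_left, ip_eq_sum g h ((show X →₀ ℝ from f).support ∪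
      (show X →₀ ℝ from g).support) Finset.subset_union_right,
      ip_eq_sum (f + g) h ((show X →₀ ℝ from f).support ∪
      (show X →₀ ℝ from g).support) Finsupp.support_add, ← Finset.sum_add_distrib]
    exact Finset.sum_congr rfl fun x _ => add_mul _ _ _
  smul_left f g r := by
    rw [conj_trivial, ip_eq_sum f g _ (Finset.Subset.refl _),
      ip_eq_sum (r • f) g (show X →₀ ℝ from f).support Finsupp.support_smul, Finset.mul_sum]
    exact Finset.sum_congr rfl fun x _ => mul_assoc _ _ _
  definite f hf := by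
    have h0 : ip f f = 0 := hf
    rw [ip_eq_sum f f _ (Finset.Subset.refl _)] at h0
    have h1 := (Finset.sum_eq_zero_iff_of_nonneg fun x _ => mul_self_nonneg (ev f x)).mp h0
    have : (show X →₀ ℝ from f) = 0 := by
      ext x
      by_contra hx
      have := h1 x (Finsupp.mem_support_iff.mpr hx)
      exact hx (mul_self_eq_zero.mp this)
    exact this

noncomputable instance (X : Type*) : NormedAddCommGroup (V X) :=
  (core X).toNormedAddCommGroup

noncomputable instance (X : Type*) : InnerProductSpace ℝ (V X) :=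
  InnerProductSpace.ofCore (core X).toCore

lemma inner_eq {X : Type*} (f g : V X) : inner ℝ f g = ip f g := rfl

/-- Basis vectors. -/
noncomputable def bs {X : Type*} (x : X) : V X := Finsupp.single x (1 : ℝ)

lemma inner_bs {X : Type*} (x : X) (g : V X) : inner ℝ (bs x) g = ev g x := by
  rw [inner_eq]
  unfold ip bs
  rw [Finsupp.sum_single_index (zero_mul _), one_mul]

lemma ev_add {X : Type*} (f g : V X) (x : X) : ev (f + g) x = ev f x + ev g x := rfl
lemma ev_smul {X : Type*} (r : ℝ) (f : V X) (x : X) : ev (r • f) x = r * ev f x := rfl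
lemma ev_zero {X : Type*} (x : X) : ev (0 : V X) x = 0 := rfl

lemma ev_sum {X ι : Type*} (S : Finset ι) (f : ι → V X) (x : X) :
    ev (∑ i ∈ S, f i) x = ∑ i ∈ S, ev (f i) x := by
  classical
  induction S using Finset.induction_on with
  | empty => rfl
  | insert a S ha ih => rw [Finset.sum_insert ha, Finset.sum_insert ha, ev_add, ih]

lemma ev_bs_self {X : Type*} (x : X) : ev (bs x) x = 1 := Finsupp.single_eq_same

lemma ev_bs_ne {X : Type*} {x y : X} (h : x ≠ y) : ev (bs x) y = 0 :=
  Finsupp.single_eq_of_ne' h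

lemma ext_ev {X : Type*} {f g : V X} (h : ∀ x, ev f x = ev g x) : f = g := Finsupp.ext h

lemma inner_nonneg_of {X : Type*} {f g : V X} (hf : ∀ x, 0 ≤ ev f x) (hg : ∀ x, 0 ≤ ev g x) :
    0 ≤ inner ℝ f g := by
  rw [inner_eq, ip_eq_sum f g _ (Finset.Subset.refl _)]
  exact Finset.sum_nonneg fun x _ => mul_nonneg (hf x) (hg x)

/-- Push forward along a map. -/
noncomputable def push {X Y : Type*} (φ : X → Y) : V X →ₗ[ℝ] V Y := Finsupp.lmapDomain ℝ ℝ φ

lemma push_bs {X Y : Type*} (φ : X → Y) (x : X) : push φ (bs x) = bs (φ x) :=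
  Finsupp.mapDomain_single

lemma push_push {X Y Z : Type*} (φ : X → Y) (ψ : Y → Z) (f : V X) :
    push ψ (push φ f) = push (ψ ∘ φ) f := Finsupp.mapDomain_comp.symm

lemma eq_sum_bs {X : Type*} (f : V X) :
    f = ∑ x ∈ (show X →₀ ℝ from f).support, ev f x • (bs x : V X) := by
  have h := Finsupp.sum_single (show X →₀ ℝ from f)
  have h2 : ∑ x ∈ (show X →₀ ℝ from f).support, ev f x • (bs x : V X) =
      (Finsupp.sum (show X →₀ ℝ from f) Finsupp.single : X →₀ ℝ) := by
    unfold Finsupp.sum
    refine Finset.sum_congr rfl fun x _ => ?_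
    unfold bs ev
    exact Finsupp.smul_single_one _ _
  rw [h2]
  exact h.symm

lemma push_nonneg {X Y : Type*} (φ : X → Y) {f : V X} (hf : ∀ x, 0 ≤ ev f x) (y : Y) :
    0 ≤ ev (push φ f) y := by
  classical
  rw [eq_sum_bs f, map_sum, ev_sum]
  refine Finset.sum_nonneg fun x _ => ?_
  rw [map_smul, ev_smul, push_bs]
  refine mul_nonneg (hf x) ?_
  by_cases h : φ x = y
  · rw [h, ev_bs_self]; exact zero_le_one
  · rw [ev_bs_ne h]

lemma ev_push_inj {X Y : Type*} {φ : X → Y} (hφ : Function.Injective φ) (f : V X) (x : X) :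
    ev (push φ f) (φ x) = ev f x := Finsupp.mapDomain_apply hφ _ _

lemma inner_push_inj {X Y : Type*} {φ : X → Y} (hφ : Function.Injective φ) (f g : V X) :
    inner ℝ (push φ f) (push φ g) = inner ℝ f g := by
  rw [eq_sum_bs f, map_sum, sum_inner, sum_inner]
  refine Finset.sum_congr rfl fun x _ => ?_
  rw [map_smul, real_inner_smul_left, real_inner_smul_left, push_bs, inner_bs, inner_bs,
    ev_push_inj hφ]

lemma norm_push_inj {X Y : Type*} {φ : X → Y} (hφ : Function.Injective φ) (f : V X) :
    ‖push φ f‖ = ‖f‖ := by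
  rw [@norm_eq_sqrt_real_inner _ _ _ (push φ f), @norm_eq_sqrt_real_inner _ _ _ f,
    inner_push_inj hφ]

section Group

variable {G : Type*} [Group G]

/-- Left translation. -/
noncomputable def lt (g : G) : V G →ₗ[ℝ] V G := push (fun x => g * x)

/-- Right translation. -/
noncomputable def rt (g : G) : V G →ₗ[ℝ] V G := push (fun x => x * g)

lemma norm_lt (g : G) (f : V G) : ‖lt g f‖ = ‖f‖ := norm_push_inj (mul_right_injective g) f
lemma norm_rt (g : G) (f : V G) : ‖rt g f‖ = ‖f‖ := norm_push_inj (mul_left_injective g) f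

lemma lt_mul (g h : G) (f : V G) : lt (g * h) f = lt g (lt h f) := by
  unfold lt
  rw [push_push]
  congr 1
  congr 1
  funext x
  exact mul_assoc _ _ _

lemma lt_one (f : V G) : lt 1 f = f := by
  rw [eq_sum_bs f, map_sum]
  refine Finset.sum_congr rfl fun x _ => ?_
  unfold lt
  rw [map_smul, push_bs, one_mul]

lemma lt_bs (g x : G) : lt g (bs x) = bs (g * x) := push_bs _ _
lemma rt_bs (g x : G) : rt g (bs x) = bs (x * g) := push_bs _ _

lemma lt_rt (g h : G) (f : V G) : lt g (rt h f) = rt h (lt g f) := by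
  unfold lt rt
  rw [push_push, push_push]
  congr 1
  congr 1
  funext x
  exact (mul_assoc _ _ _).symm

lemma inner_lt_lt (g : G) (f h : V G) : inner ℝ (lt g f) (lt g h) = inner ℝ f h :=
  inner_push_inj (mul_right_injective g) f h

lemma inner_lt_left (g : G) (f h : V G) : inner ℝ (lt g f) h = inner ℝ f (lt g⁻¹ h) := by
  rw [← inner_lt_lt g f (lt g⁻¹ h), ← lt_mul, mul_inv_cancel, lt_one]

lemma inner_lt_le (g : G) (f : V G) : inner ℝ (lt g f) f ≤ ‖f‖ ^ 2 := by
  have h := real_inner_le_norm (lt g f) f
  rw [norm_lt] at h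
  nlinarith

lemma norm_lt_sub_sq (g : G) (f : V G) : ‖lt g f - f‖ ^ 2 = 2 * (‖f‖ ^ 2 - inner ℝ (lt g f) f) := by
  rw [@norm_sub_sq_real, norm_lt]
  ring

end Group

end Pool.Agent.Cogrowth637
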