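import Pool.Agent.Cogrowth637.Space

/-!
# Return counts of symmetric walks with almost invariant vectors
-/

namespace Pool.Agent.Cogrowth637

open scoped RealInnerProductSpace

section Walk

variable {Γ G : Type*} [Group Γ] [Group G] [DecidableEq Γ] (π : Γ →* G)

/-- Lists of length `k` with entries in `W`. -/
def tuples (W : Finset Γ) : ℕ → Finset (List Γ)
  | 0 => {[]}
  | k + 1 => (W ×ˢ tuples W k).image (fun p => p.1 :: p.2)

lemma sum_tuples_succ {M : Type*} [AddCommMonoid M] (W : Finset Γ) (k : ℕ) (f : List Γ → M) :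
    ∑ l ∈ tuples W (k + 1), f l = ∑ w ∈ W, ∑ l ∈ tuples W k, f (w :: l) := by
  show ∑ l ∈ (W ×ˢ tuples W k).image (fun p => p.1 :: p.2), f l = _
  rw [Finset.sum_image, Finset.sum_product]
  rintro ⟨a, b⟩ _ ⟨c, d⟩ _ h
  have h' : a :: b = c :: d := h
  rw [List.cons.injEq] at h'
  exact Prod.ext h'.1 h'.2

lemma mem_tuples_succ {W : Finset Γ} {k : ℕ} {l : List Γ} :
    l ∈ tuples W (k + 1) ↔ ∃ w ∈ W, ∃ l' ∈ tuples W k, l = w :: l' := by
  show l ∈ (W ×ˢ tuples W k).image (fun p => p.1 :: p.2) ↔ _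
  rw [Finset.mem_image]
  constructor
  · rintro ⟨⟨a, b⟩, h1, rfl⟩
    rw [Finset.mem_product] at h1
    exact ⟨a, h1.1, b, h1.2, rfl⟩
  · rintro ⟨w, hw, l', hl', rfl⟩
    exact ⟨(w, l'), Finset.mem_product.mpr ⟨hw, hl'⟩, rfl⟩

/-- The walk operator. -/
noncomputable def T (W : Finset Γ) : V G →ₗ[ℝ] V G := ∑ w ∈ W, lt (π w)

omit [DecidableEq Γ] in
lemma T_apply (W : Finset Γ) (f : V G) : T π W f = ∑ w ∈ W, lt (π w) f := by
  unfold T
  rw [LinearMap.sum_apply]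

lemma T_pow_bs (W : Finset Γ) (k : ℕ) :
    ((T π W) ^ k) (bs (1 : G)) = ∑ l ∈ tuples W k, bs (π l.prod) := by
  induction k with
  | zero =>
    show _ = ∑ l ∈ ({[]} : Finset (List Γ)), bs (π l.prod)
    rw [Finset.sum_singleton, List.prod_nil, map_one, pow_zero]
    rfl
  | succ k ih =>
    rw [pow_succ', Module.End.mul_apply, ih, T_apply, sum_tuples_succ]
    refine Finset.sum_congr rfl fun w _ => ?_
    rw [map_sum]
    refine Finset.sum_congr rfl fun l _ => ?_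
    rw [lt_bs, List.prod_cons, map_mul]

/-- The number of `k`-tuples with trivial product. -/
noncomputable def cnt (W : Finset Γ) (k : ℕ) : ℕ :=
  open Classical in ((tuples W k).filter (fun l => π l.prod = 1)).card

lemma ev_T_pow (W : Finset Γ) (k : ℕ) : ev (((T π W) ^ k) (bs (1 : G))) 1 = cnt π W k := by
  classical
  rw [T_pow_bs, ev_sum]
  unfold cnt
  rw [Finset.card_filter, Nat.cast_sum]
  refine Finset.sum_congr rfl fun l _ => ?_
  split_ifs with h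
  · rw [h, ev_bs_self, Nat.cast_one]
  · rw [ev_bs_ne h, Nat.cast_zero]

variable {W : Finset Γ}

omit [DecidableEq Γ] in
lemma inner_T (hW : ∀ w ∈ W, w⁻¹ ∈ W) (f g : V G) :
    inner ℝ (T π W f) g = inner ℝ f (T π W g) := by
  rw [T_apply, T_apply, sum_inner, inner_sum]
  refine Finset.sum_bij' (fun w _ => w⁻¹) (fun w _ => w⁻¹) hW hW (fun w _ => inv_inv w)
    (fun w _ => inv_inv w) (fun w _ => ?_)
  rw [inner_lt_left, map_inv]

omit [DecidableEq Γ] in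
lemma inner_T_pow (hW : ∀ w ∈ W, w⁻¹ ∈ W) (k : ℕ) (f g : V G) :
    inner ℝ (((T π W) ^ k) f) g = inner ℝ f (((T π W) ^ k) g) := by
  induction k generalizing f g with
  | zero => rfl
  | succ k ih =>
    rw [pow_succ, Module.End.mul_apply, ih, inner_T π hW, ← Module.End.mul_apply, ← pow_succ',
      pow_succ]

omit [DecidableEq Γ] in
lemma T_pow_rt (k : ℕ) (x : G) (f : V G) :
    ((T π W) ^ k) (rt x f) = rt x (((T π W) ^ k) f) := by
  induction k generalizing f with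
  | zero => rfl
  | succ k ih =>
    rw [pow_succ, Module.End.mul_apply, Module.End.mul_apply]
    have : T π W (rt x f) = rt x (T π W f) := by
      rw [T_apply, T_apply, map_sum]
      exact Finset.sum_congr rfl fun w _ => lt_rt _ _ _
    rw [this, ih]

omit [DecidableEq Γ] in
lemma norm_T_pow_bs (k : ℕ) (x : G) :
    ‖((T π W) ^ k) (bs x)‖ = ‖((T π W) ^ k) (bs (1 : G))‖ := by
  have : (bs x : V G) = rt x (bs 1) := by rw [rt_bs, one_mul]
  rw [this, T_pow_rt, norm_rt]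

omit [DecidableEq Γ] in
lemma norm_T_pow_le (k : ℕ) (f : V G) :
    ‖((T π W) ^ k) f‖ ≤
      (∑ x ∈ (show G →₀ ℝ from f).support, |ev f x|) * ‖((T π W) ^ k) (bs (1 : G))‖ := by
  conv_lhs => rw [eq_sum_bs f, map_sum]
  refine (norm_sum_le _ _).trans ?_
  rw [Finset.sum_mul]
  refine Finset.sum_le_sum fun x _ => ?_
  rw [map_smul, norm_smul, norm_T_pow_bs, Real.norm_eq_abs]

lemma norm_T_pow_sq (hW : ∀ w ∈ W, w⁻¹ ∈ W) (k : ℕ) :
    ‖((T π W) ^ k) (bs (1 : G))‖ ^ 2 = cnt π W (2 * k) := by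
  rw [← real_inner_self_eq_norm_sq, inner_T_pow π hW, ← Module.End.mul_apply, ← pow_add,
    inner_bs, ← ev_T_pow]
  congr 3
  ring

omit [DecidableEq Γ] in
lemma inner_T_pow_two (hW : ∀ w ∈ W, w⁻¹ ∈ W) {η : V G} (hη : 0 < ‖η‖)
    (h : ∀ w ∈ W, 1 / 2 * ‖η‖ ^ 2 ≤ inner ℝ (lt (π w) η) η) (j : ℕ) :
    ((W.card : ℝ) / 2) ^ (2 ^ j) * ‖η‖ ^ 2 ≤ inner ℝ (((T π W) ^ (2 ^ j)) η) η := by
  induction j with
  | zero =>
    rw [pow_zero, pow_one, pow_one, T_apply, sum_inner]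
    calc ((W.card : ℝ) / 2) * ‖η‖ ^ 2 = ∑ w ∈ W, 1 / 2 * ‖η‖ ^ 2 := by
          rw [Finset.sum_const, nsmul_eq_mul]; ring
      _ ≤ _ := Finset.sum_le_sum h
  | succ j ih =>
    have h1 : inner ℝ (((T π W) ^ (2 ^ (j + 1))) η) η = ‖((T π W) ^ (2 ^ j)) η‖ ^ 2 := by
      rw [← real_inner_self_eq_norm_sq, inner_T_pow π hW (2 ^ j) η, ← Module.End.mul_apply,
        ← pow_add, real_inner_comm]
      congr 3
      ring
    have h2 : inner ℝ (((T π W) ^ (2 ^ j)) η) η ≤ ‖((T π W) ^ (2 ^ j)) η‖ * ‖η‖ :=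
      real_inner_le_norm _ _
    have h3 : ((W.card : ℝ) / 2) ^ (2 ^ j) * ‖η‖ ≤ ‖((T π W) ^ (2 ^ j)) η‖ := by
      have h4 := ih.trans h2
      rw [pow_two, ← mul_assoc] at h4
      exact le_of_mul_le_mul_right h4 hη
    rw [h1]
    have h5 : 0 ≤ ((W.card : ℝ) / 2) ^ (2 ^ j) * ‖η‖ := by positivity
    calc ((W.card : ℝ) / 2) ^ (2 ^ (j + 1)) * ‖η‖ ^ 2 =
        (((W.card : ℝ) / 2) ^ (2 ^ j) * ‖η‖) ^ 2 := by
          rw [mul_pow, ← pow_mul, pow_succ 2 j]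
      _ ≤ _ := pow_le_pow_left₀ h5 h3 2

/-- Lower bound for the number of `2^(j+1)`-tuples with trivial product. -/
theorem cnt_lower (hW : ∀ w ∈ W, w⁻¹ ∈ W) {η : V G} (hη : 0 < ‖η‖)
    (h : ∀ w ∈ W, 1 / 2 * ‖η‖ ^ 2 ≤ inner ℝ (lt (π w) η) η) :
    ∃ c : ℝ, 0 < c ∧ ∀ j : ℕ, c * ((W.card : ℝ) / 2) ^ (2 ^ (j + 1)) ≤ cnt π W (2 ^ (j + 1)) := by
  set C : ℝ := ∑ x ∈ (show G →₀ ℝ from η).support, |ev η x| with hC
  have hC0 : 0 < C := by
    have h1 := norm_T_pow_le π (W := W) 0 η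
    rw [pow_zero] at h1
    have h2 : ‖(bs (1 : G) : V G)‖ = 1 := by
      rw [@norm_eq_sqrt_real_inner, inner_bs, ev_bs_self, Real.sqrt_one]
    have h3 : ‖η‖ ≤ C * 1 := by
      rw [← h2]; exact h1
    linarith
  refine ⟨‖η‖ ^ 2 / C ^ 2, by positivity, fun j => ?_⟩
  have h1 := inner_T_pow_two π hW hη h (j + 1)
  have h2 : inner ℝ (((T π W) ^ (2 ^ (j + 1))) η) η = ‖((T π W) ^ (2 ^ j)) η‖ ^ 2 := by
    rw [← real_inner_self_eq_norm_sq, inner_T_pow π hW (2 ^ j) η, ← Module.End.mul_apply,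
      ← pow_add, real_inner_comm]
    congr 3
    ring
  have h3 := norm_T_pow_le π (W := W) (2 ^ j) η
  have h4 : ‖((T π W) ^ (2 ^ j)) η‖ ^ 2 ≤ C ^ 2 * ‖((T π W) ^ (2 ^ j)) (bs (1 : G))‖ ^ 2 := by
    rw [← mul_pow]
    exact pow_le_pow_left₀ (norm_nonneg _) h3 2
  rw [norm_T_pow_sq π hW] at h4
  have h5 : 2 * 2 ^ j = 2 ^ (j + 1) := by ring
  rw [h5] at h4
  rw [h2] at h1
  have h6 := h1.trans h4
  rw [div_mul_eq_mul_div, div_le_iff₀ (by positivity)]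
  linarith

end Walk

end Pool.Agent.Cogrowth637
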