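import Pool.Agent.Cogrowth637.Defs

/-!
# Words in a normal subgroup built from products trivial in the quotient
-/

namespace Pool.Agent.Cogrowth637

open Filter
open scoped ENNReal

variable {m : ℕ}

lemma ne_of_card (hm : 2 ≤ m) (S : Finset (Fin m × Bool)) (hS : S.card ≤ 3) : ∃ c, c ∉ S := by
  by_contra h
  push Not at h
  have h1 : (Finset.univ : Finset (Fin m × Bool)) ⊆ S := fun c _ => h c
  have h2 := Finset.card_le_card h1
  rw [Finset.card_univ, Fintype.card_prod, Fintype.card_fin, Fintype.card_bool] at h2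
  omega

/-- The inverse letter. -/
def bar (x : Fin m × Bool) : Fin m × Bool := (x.1, !x.2)

lemma bar_bar (x : Fin m × Bool) : bar (bar x) = x := by
  unfold bar; simp

lemma red_iff (a b : Fin m × Bool) : (a.1 = b.1 → a.2 = b.2) ↔ b ≠ bar a := by
  unfold bar
  constructor
  · rintro h rfl
    have := h rfl
    simp at this
  · intro h h1
    by_contra h2
    apply h
    refine Prod.ext h1.symm ?_
    cases ha : a.2 <;> cases hb : b.2 <;> simp_all

lemma isReduced_pair {a b : Fin m × Bool} (h : b ≠ bar a) : FreeGroup.IsReduced [a, b] := by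
  rw [FreeGroup.isReduced_cons_cons]
  exact ⟨(red_iff a b).mpr h, FreeGroup.IsReduced.singleton⟩

lemma overlap_one {L₁ L₃ : List (Fin m × Bool)} {x : Fin m × Bool}
    (h1 : FreeGroup.IsReduced (L₁ ++ [x])) (h2 : FreeGroup.IsReduced ([x] ++ L₃)) :
    FreeGroup.IsReduced (L₁ ++ [x] ++ L₃) :=
  FreeGroup.IsReduced.append_overlap h1 h2 (by simp)

/-- Separators. -/
lemma exists_sep (hm : 2 ≤ m) (N : Subgroup (FreeGroup (Fin m))) [N.Normal]
    {v : FreeGroup (Fin m)} (hv : v ∈ N) (hv1 : v ≠ 1) (x : Fin m × Bool)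
    (yo : Option (Fin m × Bool)) :
    ∃ S : List (Fin m × Bool), S.length = v.norm + 4 ∧ FreeGroup.mk S ∈ N ∧
      FreeGroup.IsReduced (x :: S) ∧ FreeGroup.IsReduced (S ++ yo.toList) := by
  classical
  have hvne : v.toWord ≠ [] := fun h => hv1 (FreeGroup.toWord_eq_nil_iff.mp h)
  obtain ⟨p, tl, hp⟩ := List.exists_cons_of_ne_nil hvne
  obtain ⟨ini, z, hz⟩ : ∃ ini z, v.toWord = ini ++ [z] :=
    ⟨v.toWord.dropLast, v.toWord.getLast hvne, (List.dropLast_append_getLast hvne).symm⟩
  obtain ⟨c1, hc1⟩ := ne_of_card hm ({bar x} ∪ yo.toFinset) (by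
    refine (Finset.card_union_le _ _).trans ?_
    rw [Finset.card_singleton]
    have : yo.toFinset.card ≤ 1 := by cases yo <;> simp
    omega)
  have hc1x : c1 ≠ bar x := fun h => hc1 (Finset.mem_union_left _ (by simp [h]))
  have hc1y : ∀ y, yo = some y → c1 ≠ y := by
    rintro y rfl h
    exact hc1 (Finset.mem_union_right _ (by simp [h]))
  obtain ⟨c2, hc2⟩ := ne_of_card hm {bar c1, bar p, z} (Finset.card_le_three)
  have h2a : c2 ≠ bar c1 := fun h => hc2 (by simp [h])
  have h2b : c2 ≠ bar p := fun h => hc2 (by simp [h])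
  have h2c : c2 ≠ z := fun h => hc2 (by simp [h])
  have hb : ∀ a b : Fin m × Bool, a ≠ bar b → b ≠ bar a := by
    intro a b h h'
    apply h
    rw [h', bar_bar]
  have hvred := FreeGroup.isReduced_toWord (x := v)
  refine ⟨[c1, c2] ++ v.toWord ++ [bar c2, bar c1], ?_, ?_, ?_, ?_⟩
  · simp only [List.length_append, List.length_cons, List.length_nil, norm_eq]
    omega
  · have h1 : FreeGroup.mk ([c1, c2] ++ v.toWord ++ [bar c2, bar c1]) =
        FreeGroup.mk [c1, c2] * v * (FreeGroup.mk [c1, c2])⁻¹ := by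
      conv_rhs => rw [← FreeGroup.mk_toWord (x := v)]
      rw [FreeGroup.inv_mk, FreeGroup.mul_mk, FreeGroup.mul_mk]
      rfl
    rw [h1]
    exact Subgroup.Normal.conj_mem inferInstance v hv _
  · -- x :: c1 :: c2 :: v ++ ...
    have r1 : FreeGroup.IsReduced ([x] ++ [c1]) := isReduced_pair hc1x
    have r2 : FreeGroup.IsReduced ([c1] ++ [c2]) := isReduced_pair h2a
    have r3 : FreeGroup.IsReduced ([c2] ++ [p]) := isReduced_pair (hb _ _ h2b)
    have r4 : FreeGroup.IsReduced ([z] ++ [bar c2]) := isReduced_pair (fun h => h2c (by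
      rw [← bar_bar c2, h, bar_bar]))
    have r5 : FreeGroup.IsReduced ([bar c2] ++ [bar c1]) := isReduced_pair (fun h => h2a (by
      rw [bar_bar] at h; exact h.symm))
    have s1 := overlap_one r1 r2
    have s2 := overlap_one (L₁ := [x] ++ [c1]) s1 r3
    have s3 : FreeGroup.IsReduced (([x] ++ [c1] ++ [c2]) ++ [p] ++ tl) :=
      overlap_one s2 (by
        show FreeGroup.IsReduced (p :: tl)
        rw [← hp]; exact hvred)
    have s4 : FreeGroup.IsReduced (([x] ++ [c1] ++ [c2] ++ ini) ++ [z]) := by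
      have : ([x] ++ [c1] ++ [c2] ++ ini) ++ [z] = ([x] ++ [c1] ++ [c2]) ++ [p] ++ tl := by
        rw [List.append_assoc _ ini, ← hz, hp]
        simp
      rw [this]; exact s3
    have s5 := overlap_one s4 r4
    have s6 := overlap_one s5 r5
    have : x :: ([c1, c2] ++ v.toWord ++ [bar c2, bar c1]) =
        ([x] ++ [c1] ++ [c2] ++ ini) ++ [z] ++ [bar c2] ++ [bar c1] := by
      rw [hz]; simp
    rw [this]; exact s6
  · have r2 : FreeGroup.IsReduced ([c1] ++ [c2]) := isReduced_pair h2a
    have r3 : FreeGroup.IsReduced ([c2] ++ [p]) := isReduced_pair (hb _ _ h2b)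
    have r4 : FreeGroup.IsReduced ([z] ++ [bar c2]) := isReduced_pair (fun h => h2c (by
      rw [← bar_bar c2, h, bar_bar]))
    have r5 : FreeGroup.IsReduced ([bar c2] ++ [bar c1]) := isReduced_pair (fun h => h2a (by
      rw [bar_bar] at h; exact h.symm))
    have s2 := overlap_one r2 r3
    have s3 : FreeGroup.IsReduced (([c1] ++ [c2]) ++ [p] ++ tl) :=
      overlap_one s2 (by
        show FreeGroup.IsReduced (p :: tl)
        rw [← hp]; exact hvred)
    have s4 : FreeGroup.IsReduced (([c1] ++ [c2] ++ ini) ++ [z]) := by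
      have : ([c1] ++ [c2] ++ ini) ++ [z] = ([c1] ++ [c2]) ++ [p] ++ tl := by
        rw [List.append_assoc _ ini, ← hz, hp]
        simp
      rw [this]; exact s3
    have s5 := overlap_one s4 r4
    have s6 := overlap_one s5 r5
    have s7 : FreeGroup.IsReduced ((([c1] ++ [c2] ++ ini) ++ [z] ++ [bar c2]) ++ [bar c1] ++
        yo.toList) := by
      refine overlap_one s6 ?_
      cases hyo : yo with
      | none => exact FreeGroup.IsReduced.singleton
      | some y => exact isReduced_pair (fun h => hc1y y hyo (by rw [h, bar_bar]))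
    have : ([c1, c2] ++ v.toWord ++ [bar c2, bar c1]) ++ yo.toList =
        (([c1] ++ [c2] ++ ini) ++ [z] ++ [bar c2]) ++ [bar c1] ++ yo.toList := by
      rw [hz]; simp
    rw [this]; exact s7

section RWord

variable (sep : Fin m × Bool → Option (Fin m × Bool) → List (Fin m × Bool))

/-- The word obtained from a list of elements by inserting separators. -/
def rword : List (FreeGroup (Fin m)) → List (Fin m × Bool)
  | [] => []
  | u :: l => u.toWord ++ (match u.toWord.getLast? with
      | none => []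
      | some x => sep x (rword l).head?) ++ rword l

lemma rword_cons {u : FreeGroup (Fin m)} {l : List (FreeGroup (Fin m))}
    {ini : List (Fin m × Bool)} {x : Fin m × Bool} (hu : u.toWord = ini ++ [x]) :
    rword sep (u :: l) = u.toWord ++ sep x (rword sep l).head? ++ rword sep l := by
  show u.toWord ++ (match u.toWord.getLast? with
      | none => []
      | some x => sep x (rword sep l).head?) ++ rword sep l = _
  rw [hu, List.getLast?_append_of_ne_nil _ (by simp)]
  rfl

lemma exists_last {n : ℕ} (hn : 1 ≤ n) {u : FreeGroup (Fin m)} (hu : u.norm = n) :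
    ∃ ini x, u.toWord = ini ++ [x] := by
  have hne : u.toWord ≠ [] := by
    intro h
    rw [norm_eq, h] at hu
    simp at hu
    omega
  exact ⟨u.toWord.dropLast, u.toWord.getLast hne, (List.dropLast_append_getLast hne).symm⟩

variable {sep}

lemma rword_reduced {k n : ℕ} (hn : 1 ≤ n) {W : Finset (FreeGroup (Fin m))}
    (hW : ∀ w ∈ W, w.norm = n) {L : ℕ} (hL : 1 ≤ L)
    (h1 : ∀ x yo, (sep x yo).length = L)
    (h3 : ∀ x yo, FreeGroup.IsReduced (x :: sep x yo))
    (h4 : ∀ x yo, FreeGroup.IsReduced (sep x yo ++ yo.toList))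
    {l : List (FreeGroup (Fin m))} (hl : l ∈ tuples W k) :
    FreeGroup.IsReduced (rword sep l) ∧ (rword sep l).length = k * (n + L) := by
  induction k generalizing l with
  | zero =>
    have : l = [] := Finset.mem_singleton.mp hl
    subst this
    exact ⟨FreeGroup.IsReduced.nil, by simp [rword]⟩
  | succ k ih =>
    obtain ⟨w, hw, l', hl', rfl⟩ := mem_tuples_succ.mp hl
    obtain ⟨ih1, ih2⟩ := ih hl'
    obtain ⟨ini, x, hx⟩ := exists_last hn (hW w hw)
    rw [rword_cons sep hx]
    refine ⟨?_, ?_⟩
    · have a1 : FreeGroup.IsReduced (w.toWord ++ sep x (rword sep l').head?) := by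
        rw [hx]
        refine overlap_one ?_ (h3 x _)
        rw [← hx]; exact FreeGroup.isReduced_toWord
      have a2 : FreeGroup.IsReduced (sep x (rword sep l').head? ++ rword sep l') := by
        cases hr : rword sep l' with
        | nil =>
          have := h4 x none
          simpa using this
        | cons y t =>
          have b1 := h4 x (some y)
          have b2 := overlap_one (L₃ := t) b1 (by
            show FreeGroup.IsReduced (y :: t)
            rw [← hr]; exact ih1)
          simpa using b2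
      refine FreeGroup.IsReduced.append_overlap a1 a2 ?_
      intro h
      have := h1 x (rword sep l').head?
      rw [h] at this
      simp at this
      omega
    · rw [List.length_append, List.length_append, h1, ih2, ← norm_eq, hW w hw]
      ring

lemma rword_inj {k n : ℕ} (hn : 1 ≤ n) {W : Finset (FreeGroup (Fin m))}
    (hW : ∀ w ∈ W, w.norm = n) {L : ℕ} (h1 : ∀ x yo, (sep x yo).length = L)
    {l l' : List (FreeGroup (Fin m))} (hl : l ∈ tuples W k) (hl' : l' ∈ tuples W k)
    (h : rword sep l = rword sep l') : l = l' := by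
  induction k generalizing l l' with
  | zero =>
    rw [Finset.mem_singleton.mp hl, Finset.mem_singleton.mp hl']
  | succ k ih =>
    obtain ⟨w, hw, t, ht, rfl⟩ := mem_tuples_succ.mp hl
    obtain ⟨w', hw', t', ht', rfl⟩ := mem_tuples_succ.mp hl'
    obtain ⟨ini, x, hx⟩ := exists_last hn (hW w hw)
    obtain ⟨ini', x', hx'⟩ := exists_last hn (hW w' hw')
    rw [rword_cons sep hx, rword_cons sep hx', List.append_assoc, List.append_assoc] at h
    have hlen : w.toWord.length = w'.toWord.length := by
      rw [← norm_eq, ← norm_eq, hW w hw, hW w' hw']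
    obtain ⟨e1, e2⟩ := List.append_inj h hlen
    have hww : w = w' := FreeGroup.toWord_injective e1
    obtain ⟨_, e4⟩ := List.append_inj e2 (by rw [h1, h1])
    rw [hww, ih ht ht' e4]

lemma rword_map {G : Type*} [Group G] (π : FreeGroup (Fin m) →* G)
    (h2 : ∀ x yo, π (FreeGroup.mk (sep x yo)) = 1) {k n : ℕ} (hn : 1 ≤ n)
    {W : Finset (FreeGroup (Fin m))} (hW : ∀ w ∈ W, w.norm = n)
    {l : List (FreeGroup (Fin m))} (hl : l ∈ tuples W k) :
    π (FreeGroup.mk (rword sep l)) = π l.prod := by
  induction k generalizing l with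
  | zero =>
    rw [Finset.mem_singleton.mp hl]
    rfl
  | succ k ih =>
    obtain ⟨w, hw, t, ht, rfl⟩ := mem_tuples_succ.mp hl
    obtain ⟨ini, x, hx⟩ := exists_last hn (hW w hw)
    rw [rword_cons sep hx, ← FreeGroup.mul_mk, ← FreeGroup.mul_mk, map_mul, map_mul, h2, mul_one,
      ih ht, FreeGroup.mk_toWord, List.prod_cons, map_mul]

lemma rword_vec {r : Fin m → ℝ} (hr : r ∈ stdSimplex ℝ (Fin m)) {k n : ℕ} (hn : 1 ≤ n)
    {W : Finset (FreeGroup (Fin m))}
    (hW : ∀ w ∈ W, w.norm = n) {δ : ℝ} (hWδ : ∀ w ∈ W, l1 (wpVec w - (n : ℝ) • r) ≤ δ * n)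
    {L : ℕ} (h1 : ∀ x yo, (sep x yo).length = L)
    {l : List (FreeGroup (Fin m))} (hl : l ∈ tuples W k) :
    l1 (lvec (rword sep l) - ((k * (n + L) : ℕ) : ℝ) • r) ≤ k * (δ * n + 2 * L) := by
  induction k generalizing l with
  | zero =>
    rw [Finset.mem_singleton.mp hl]
    have h0 : lvec (rword sep []) - ((0 * (n + L) : ℕ) : ℝ) • r = 0 := by
      funext i
      simp [lvec, rword]
    rw [h0]
    unfold l1
    simp
  | succ k ih =>
    obtain ⟨w, hw, t, ht, rfl⟩ := mem_tuples_succ.mp hl
    obtain ⟨ini, x, hx⟩ := exists_last hn (hW w hw)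
    rw [rword_cons sep hx, lvec_append, lvec_append]
    have e1 : lvec w.toWord + lvec (sep x (rword sep t).head?) + lvec (rword sep t) -
        (((k + 1) * (n + L) : ℕ) : ℝ) • r =
        (wpVec w - (n : ℝ) • r) + (lvec (sep x (rword sep t).head?) - (L : ℝ) • r) +
        (lvec (rword sep t) - ((k * (n + L) : ℕ) : ℝ) • r) := by
      rw [← wpVec_eq]
      push_cast
      module
    rw [e1]
    have e2 : l1 (lvec (sep x (rword sep t).head?) - (L : ℝ) • r) ≤ 2 * L := by
      refine (l1_sub _ _).trans ?_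
      rw [l1_lvec, l1_smul, l1_simplex hr, h1, abs_of_nonneg (Nat.cast_nonneg _)]
      linarith
    have e3 := l1_add ((wpVec w - (n : ℝ) • r) + (lvec (sep x (rword sep t).head?) - (L : ℝ) • r))
      (lvec (rword sep t) - ((k * (n + L) : ℕ) : ℝ) • r)
    have e4 := l1_add (wpVec w - (n : ℝ) • r) (lvec (sep x (rword sep t).head?) - (L : ℝ) • r)
    have e5 := ih ht
    have e6 := hWδ w hw
    push_cast at e5 ⊢
    push_cast at e3
    linarith

end RWord

end Pool.Agent.Cogrowth637
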